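import Pool.Agent.J6H10.GC.L3

/-! # Weighted mean squares: Tonelli's theorem -/

set_option autoImplicit false

open MeasureTheory Filter Topology Set
open Pool.Agent.H295R2 hiding VV

namespace Pool.Agent.J6H10.GC

noncomputable section

lemma lint_exp_Ioi {b : ℝ} (hb : 0 < b) (c : ℝ) :
    ∫⁻ L in Ioi c, ENNReal.ofReal (b * Real.exp (-(b * L))) = ENNReal.ofReal (Real.exp (-(b * c))) := by
  have hi : IntegrableOn (fun L : ℝ => b * Real.exp (-(b * L))) (Ioi c) := by
    have := (integrableOn_exp_mul_Ioi (neg_lt_zero.2 hb) c).const_mul b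
    simp only [neg_mul] at this
    exact this
  rw [← ofReal_integral_eq_lintegral_ofReal hi (Eventually.of_forall fun L => by positivity)]
  congr 1
  have h := integral_exp_mul_Ioi (neg_lt_zero.2 hb) c
  rw [integral_const_mul]
  simp only [neg_mul] at h
  rw [h]
  field_simp

/-- from the growth of the integrals over `u ≤ L` to the Laplace transform -/
lemma tonelli_exp {g : ℝ → ENNReal} (hg : Measurable g) {A δ : ℝ} (hA : 0 ≤ A) (hδ : 0 < δ)
    (hδ1 : δ ≤ 1) (h0 : ∀ u : ℝ, u < -1 → g u = 0)
    (h : ∀ L : ℝ, 0 ≤ L → ∫⁻ u in Iic L, g u ≤ ENNReal.ofReal (A * (1 + L))) :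
    ∫⁻ u, g u * ENNReal.ofReal (Real.exp (-(2 * δ * u))) ≤ ENNReal.ofReal (20 * A / δ) := by
  have hsplit : ∫⁻ u, g u * ENNReal.ofReal (Real.exp (-(2 * δ * u))) =
      (∫⁻ u in Iic 0, g u * ENNReal.ofReal (Real.exp (-(2 * δ * u)))) +
        ∫⁻ u in Ioi 0, g u * ENNReal.ofReal (Real.exp (-(2 * δ * u))) := by
    rw [← lintegral_add_compl _ (measurableSet_Iic (a := (0 : ℝ))), compl_Iic]
  have h1 : ∫⁻ u in Iic 0, g u * ENNReal.ofReal (Real.exp (-(2 * δ * u))) ≤
      ENNReal.ofReal (9 * A) := by
    calc ∫⁻ u in Iic 0, g u * ENNReal.ofReal (Real.exp (-(2 * δ * u)))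
        ≤ ∫⁻ u in Iic 0, g u * ENNReal.ofReal 9 := by
          refine setLIntegral_mono' measurableSet_Iic fun u _ => ?_
          by_cases hu : u < -1
          · rw [h0 u hu, zero_mul, zero_mul]
          · refine mul_le_mul' le_rfl (ENNReal.ofReal_le_ofReal ?_)
            have h2 : Real.exp (-(2 * δ * u)) ≤ Real.exp (1 + 1) := by
              apply Real.exp_le_exp.2
              nlinarith [not_lt.1 hu]
            refine h2.trans ?_
            rw [Real.exp_add]
            nlinarith [Real.exp_one_lt_d9, Real.exp_pos 1]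
      _ = (∫⁻ u in Iic 0, g u) * ENNReal.ofReal 9 := lintegral_mul_const' _ _ ENNReal.ofReal_ne_top
      _ ≤ ENNReal.ofReal (A * (1 + 0)) * ENNReal.ofReal 9 := mul_le_mul' (h 0 le_rfl) le_rfl
      _ = ENNReal.ofReal (9 * A) := by
          rw [← ENNReal.ofReal_mul (by positivity)]
          congr 1
          ring
  have h2 : ∫⁻ u in Ioi 0, g u * ENNReal.ofReal (Real.exp (-(2 * δ * u))) ≤
      ENNReal.ofReal (4 * A / δ) := by
    have e1 : ∀ u : ℝ, g u * ENNReal.ofReal (Real.exp (-(2 * δ * u))) =
        ∫⁻ L, g u * (Ioi u).indicator (fun L => ENNReal.ofReal (2 * δ * Real.exp (-(2 * δ * L)))) L := by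
      intro u
      rw [lintegral_const_mul _ ((Measurable.ennreal_ofReal (by fun_prop)).indicator measurableSet_Ioi),
        lintegral_indicator measurableSet_Ioi, lint_exp_Ioi (by positivity) u]
    simp_rw [e1]
    have hm : Measurable (fun p : ℝ × ℝ => g p.1 *
        (Ioi p.1).indicator (fun L => ENNReal.ofReal (2 * δ * Real.exp (-(2 * δ * L)))) p.2) := by
      refine (hg.comp measurable_fst).mul ?_
      have e2 : (fun p : ℝ × ℝ => (Ioi p.1).indicator
          (fun L => ENNReal.ofReal (2 * δ * Real.exp (-(2 * δ * L)))) p.2) =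
          ({p : ℝ × ℝ | p.1 < p.2}).indicator
            (fun p => ENNReal.ofReal (2 * δ * Real.exp (-(2 * δ * p.2)))) := by
        funext p
        by_cases hp : p.1 < p.2
        · rw [indicator_of_mem (show p.2 ∈ Ioi p.1 from hp), indicator_of_mem (show p ∈ {p : ℝ × ℝ | p.1 < p.2} from hp)]
        · rw [indicator_of_notMem (show p.2 ∉ Ioi p.1 from hp),
            indicator_of_notMem (show p ∉ {p : ℝ × ℝ | p.1 < p.2} from hp)]
      rw [e2]
      refine Measurable.indicator (Measurable.ennreal_ofReal (by fun_prop)) ?_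
      exact measurableSet_lt measurable_fst measurable_snd
    rw [lintegral_lintegral_swap hm.aemeasurable]
    have e3 : ∀ L : ℝ, ∫⁻ u in Ioi 0, g u *
        (Ioi u).indicator (fun L => ENNReal.ofReal (2 * δ * Real.exp (-(2 * δ * L)))) L ≤
        (Ioi (0 : ℝ)).indicator (fun L => ENNReal.ofReal (4 * A / δ * (δ * Real.exp (-(δ * L))))) L := by
      intro L
      rcases le_or_gt L 0 with hL | hL
      · rw [indicator_of_notMem (by simpa using hL)]
        refine le_of_eq (setLIntegral_eq_zero measurableSet_Ioi fun u hu => ?_)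
        rw [indicator_of_notMem, mul_zero]
        · rfl
        · intro hc
          have : u < L := hc
          have : 0 < u := hu
          linarith
      · rw [indicator_of_mem (show L ∈ Ioi (0 : ℝ) from hL)]
        calc ∫⁻ u in Ioi 0, g u *
              (Ioi u).indicator (fun L => ENNReal.ofReal (2 * δ * Real.exp (-(2 * δ * L)))) L
            ≤ ∫⁻ u, (Iic L).indicator g u * ENNReal.ofReal (2 * δ * Real.exp (-(2 * δ * L))) := by
              refine (setLIntegral_le_lintegral _ _).trans (lintegral_mono fun u => ?_)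
              by_cases hu : u < L
              · rw [indicator_of_mem (show L ∈ Ioi u from hu), indicator_of_mem (show u ∈ Iic L from hu.le)]
              · rw [indicator_of_notMem (show L ∉ Ioi u from hu), mul_zero]
                exact zero_le
          _ = (∫⁻ u in Iic L, g u) * ENNReal.ofReal (2 * δ * Real.exp (-(2 * δ * L))) := by
              rw [lintegral_mul_const' _ _ ENNReal.ofReal_ne_top, lintegral_indicator measurableSet_Iic]
          _ ≤ ENNReal.ofReal (A * (1 + L)) * ENNReal.ofReal (2 * δ * Real.exp (-(2 * δ * L))) :=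
              mul_le_mul' (h L hL.le) le_rfl
          _ ≤ _ := by
              rw [← ENNReal.ofReal_mul (by positivity)]
              apply ENNReal.ofReal_le_ofReal
              have h3 : 1 + L ≤ 2 / δ * Real.exp (δ * L) := by
                have h4 := Real.add_one_le_exp (δ * L)
                have h5 : 1 ≤ 1 / δ := by
                  rw [le_div_iff₀ hδ]
                  linarith
                have h6 : 1 ≤ Real.exp (δ * L) := Real.one_le_exp (by positivity)
                have h7 : L ≤ 1 / δ * Real.exp (δ * L) := by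
                  rw [one_div, ← div_eq_inv_mul, le_div_iff₀ hδ]
                  nlinarith
                calc 1 + L ≤ 1 / δ * Real.exp (δ * L) + 1 / δ * Real.exp (δ * L) := by
                      refine add_le_add ?_ h7
                      nlinarith
                  _ = _ := by ring
              calc A * (1 + L) * (2 * δ * Real.exp (-(2 * δ * L)))
                  ≤ A * (2 / δ * Real.exp (δ * L)) * (2 * δ * Real.exp (-(2 * δ * L))) := by gcongr
                _ = 4 * A / δ * δ * (Real.exp (δ * L) * Real.exp (-(2 * δ * L))) := by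
                    field_simp
                    ring
                _ = 4 * A / δ * (δ * Real.exp (-(δ * L))) := by
                    rw [← Real.exp_add]
                    ring_nf
    refine (lintegral_mono e3).trans ?_
    rw [lintegral_indicator measurableSet_Ioi]
    simp_rw [ENNReal.ofReal_mul (by positivity : (0:ℝ) ≤ 4 * A / δ)]
    rw [lintegral_const_mul' _ _ ENNReal.ofReal_ne_top, lint_exp_Ioi hδ 0]
    simp
  rw [hsplit]
  refine (add_le_add h1 h2).trans ?_
  rw [← ENNReal.ofReal_add (by positivity) (by positivity)]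
  apply ENNReal.ofReal_le_ofReal
  have h5 : 9 * A ≤ 9 * A / δ := by
    rw [le_div_iff₀ hδ]
    nlinarith
  have h6 : 9 * A / δ + 4 * A / δ ≤ 20 * A / δ := by
    rw [← add_div]
    apply div_le_div_of_nonneg_right _ hδ.le
    linarith
  linarith

/-- from the second moment over `|t| ≤ R` to the weighted one -/
lemma tonelli_pow {w : ℝ → ENNReal} (hw : Measurable w) {A R₀ : ℝ} (hA : 0 ≤ A) (hR : 0 < R₀)
    (h : ∀ R : ℝ, R₀ ≤ R → ∫⁻ ξ in {ξ : ℝ | |2 * Real.pi * ξ| ≤ R}, w ξ ≤ ENNReal.ofReal (A * R)) :
    ∫⁻ ξ, w ξ * ENNReal.ofReal (1 / (R₀ ^ 2 + |2 * Real.pi * ξ| ^ 2)) ≤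
      ENNReal.ofReal (3 * A / R₀) := by
  have hpow : ∀ c : ℝ, 0 < c → ∫⁻ R in Ioi c, ENNReal.ofReal (2 * R ^ (-3 : ℝ)) =
      ENNReal.ofReal (c ^ (-2 : ℝ)) := by
    intro c hc
    have hi : IntegrableOn (fun R : ℝ => 2 * R ^ (-3 : ℝ)) (Ioi c) :=
      (integrableOn_Ioi_rpow_of_lt (by norm_num) hc).const_mul 2
    rw [← ofReal_integral_eq_lintegral_ofReal hi]
    · congr 1
      rw [integral_const_mul, integral_Ioi_rpow_of_lt (by norm_num) hc]
      norm_num
      ring
    · filter_upwards [ae_restrict_mem measurableSet_Ioi] with R hR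
      have : 0 < R := hc.trans hR
      simp only [Pi.zero_apply]
      positivity
  set m : ℝ → ℝ := fun ξ => max R₀ |2 * Real.pi * ξ| with hm
  have hm0 : ∀ ξ, 0 < m ξ := fun ξ => lt_max_of_lt_left hR
  have e0 : ∀ ξ, 1 / (R₀ ^ 2 + |2 * Real.pi * ξ| ^ 2) ≤ (m ξ) ^ (-2 : ℝ) := by
    intro ξ
    have h1 : (m ξ) ^ (-2 : ℝ) = 1 / (m ξ) ^ 2 := by
      rw [Real.rpow_neg (hm0 ξ).le, one_div]
      congr 1
      exact_mod_cast Real.rpow_natCast (m ξ) 2
    rw [h1]
    apply one_div_le_one_div_of_le (by have := hm0 ξ; positivity)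
    rcases le_total R₀ |2 * Real.pi * ξ| with h2 | h2
    · rw [hm]
      simp only [max_eq_right h2]
      nlinarith
    · rw [hm]
      simp only [max_eq_left h2]
      nlinarith [sq_nonneg |2 * Real.pi * ξ|]
  calc ∫⁻ ξ, w ξ * ENNReal.ofReal (1 / (R₀ ^ 2 + |2 * Real.pi * ξ| ^ 2))
      ≤ ∫⁻ ξ, ∫⁻ R, w ξ * (Ioi (m ξ)).indicator (fun R => ENNReal.ofReal (2 * R ^ (-3 : ℝ))) R := by
        refine lintegral_mono fun ξ => ?_
        rw [lintegral_const_mul _ ((Measurable.ennreal_ofReal (by fun_prop)).indicator measurableSet_Ioi),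
          lintegral_indicator measurableSet_Ioi, hpow _ (hm0 ξ)]
        exact mul_le_mul' le_rfl (ENNReal.ofReal_le_ofReal (e0 ξ))
    _ = ∫⁻ R, ∫⁻ ξ, w ξ * (Ioi (m ξ)).indicator (fun R => ENNReal.ofReal (2 * R ^ (-3 : ℝ))) R := by
        have hmeas : Measurable (fun p : ℝ × ℝ => w p.1 *
            (Ioi (m p.1)).indicator (fun R => ENNReal.ofReal (2 * R ^ (-3 : ℝ))) p.2) := by
          refine (hw.comp measurable_fst).mul ?_
          have hmm : Measurable m := by
            rw [hm]
            fun_prop
          have e2 : (fun p : ℝ × ℝ => (Ioi (m p.1)).indicator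
              (fun R => ENNReal.ofReal (2 * R ^ (-3 : ℝ))) p.2) =
              ({p : ℝ × ℝ | m p.1 < p.2}).indicator
                (fun p => ENNReal.ofReal (2 * p.2 ^ (-3 : ℝ))) := by
            funext p
            by_cases hp : m p.1 < p.2
            · rw [indicator_of_mem (show p.2 ∈ Ioi (m p.1) from hp),
                indicator_of_mem (show p ∈ {p : ℝ × ℝ | m p.1 < p.2} from hp)]
            · rw [indicator_of_notMem (show p.2 ∉ Ioi (m p.1) from hp),
                indicator_of_notMem (show p ∉ {p : ℝ × ℝ | m p.1 < p.2} from hp)]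
          rw [e2]
          refine Measurable.indicator (Measurable.ennreal_ofReal (by fun_prop)) ?_
          exact measurableSet_lt (hmm.comp measurable_fst) measurable_snd
        exact lintegral_lintegral_swap hmeas.aemeasurable
    _ ≤ ∫⁻ R, (Ioi R₀).indicator (fun R => ENNReal.ofReal (A * (2 * R ^ (-2 : ℝ)))) R := by
        refine lintegral_mono fun R => ?_
        rcases le_or_gt R R₀ with h1 | h1
        · rw [indicator_of_notMem (by simpa using h1)]
          refine le_of_eq (lintegral_eq_zero_of_ae_eq_zero (Eventually.of_forall fun ξ => ?_))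
          simp only
          rw [indicator_of_notMem, mul_zero]
          · rfl
          · intro hc
            have h2 : m ξ < R := hc
            have h3 : R₀ ≤ m ξ := le_max_left _ _
            linarith
        · rw [indicator_of_mem (show R ∈ Ioi R₀ from h1)]
          have hRpos : 0 < R := hR.trans h1
          have hset : MeasurableSet {ξ : ℝ | |2 * Real.pi * ξ| ≤ R} :=
            measurableSet_le (by fun_prop) measurable_const
          calc ∫⁻ ξ, w ξ * (Ioi (m ξ)).indicator (fun R => ENNReal.ofReal (2 * R ^ (-3 : ℝ))) R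
              ≤ ∫⁻ ξ, ({ξ : ℝ | |2 * Real.pi * ξ| ≤ R}).indicator w ξ *
                ENNReal.ofReal (2 * R ^ (-3 : ℝ)) := by
                refine lintegral_mono fun ξ => ?_
                by_cases h2 : m ξ < R
                · rw [indicator_of_mem (show R ∈ Ioi (m ξ) from h2), indicator_of_mem]
                  exact (le_max_right _ _).trans h2.le
                · rw [indicator_of_notMem (show R ∉ Ioi (m ξ) from h2), mul_zero]
                  exact zero_le
            _ = (∫⁻ ξ in {ξ : ℝ | |2 * Real.pi * ξ| ≤ R}, w ξ) * ENNReal.ofReal (2 * R ^ (-3 : ℝ)) := by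
                rw [lintegral_mul_const' _ _ ENNReal.ofReal_ne_top, lintegral_indicator hset]
            _ ≤ ENNReal.ofReal (A * R) * ENNReal.ofReal (2 * R ^ (-3 : ℝ)) :=
                mul_le_mul' (h R h1.le) le_rfl
            _ = _ := by
                rw [← ENNReal.ofReal_mul (by positivity)]
                congr 1
                have : R ^ (-2 : ℝ) = R * R ^ (-3 : ℝ) := by
                  rw [mul_comm, ← Real.rpow_add_one hRpos.ne']
                  norm_num
                rw [this]
                ring
    _ = ENNReal.ofReal (2 * A / R₀) := by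
        rw [lintegral_indicator measurableSet_Ioi]
        have hi : IntegrableOn (fun R : ℝ => A * (2 * R ^ (-2 : ℝ))) (Ioi R₀) :=
          ((integrableOn_Ioi_rpow_of_lt (by norm_num) hR).const_mul 2).const_mul A
        rw [← ofReal_integral_eq_lintegral_ofReal hi]
        · congr 1
          rw [integral_const_mul, integral_const_mul, integral_Ioi_rpow_of_lt (by norm_num) hR]
          have : R₀ ^ ((-2 : ℝ) + 1) = 1 / R₀ := by
            norm_num
            rw [Real.rpow_neg_one]
          rw [this]
          norm_num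
          field_simp
        · filter_upwards [ae_restrict_mem measurableSet_Ioi] with R hR'
          have : 0 < R := hR.trans hR'
          simp only [Pi.zero_apply]
          positivity
    _ ≤ _ := by
        apply ENNReal.ofReal_le_ofReal
        apply div_le_div_of_nonneg_right _ hR.le
        linarith

end

end Pool.Agent.J6H10.GC
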