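import Pool.Agent.J6H10.GC.B1

/-! # The differences of `M` and the second moment of `1/ζ` -/

set_option autoImplicit false

open MeasureTheory Filter Topology Set
open Pool.Agent.H295R2 hiding VV

namespace Pool.Agent.J6H10.GC

noncomputable section

/-- the weighted mean square of the differences -/
def D2 (τ δ : ℝ) : ENNReal :=
  ∫⁻ u : ℝ, ENNReal.ofReal (‖kM (u + τ) - kM u‖ ^ 2 * Real.exp (-(2 * (1 / 2 + δ) * u)))

/-- `|1/ζ|²` on the line -/
def Wz (δ ξ : ℝ) : ENNReal :=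
  ENNReal.ofReal (‖fz (((1 / 2 + δ : ℝ) : ℂ) + 2 * Real.pi * ξ * Complex.I)‖ ^ 2)

/-- its integral over `|2πξ| ≤ R` -/
def Sm (δ R : ℝ) : ENNReal := ∫⁻ ξ in {ξ : ℝ | |2 * Real.pi * ξ| ≤ R}, Wz δ ξ

/-- the second moment of `1/ζ` -/
def mom2 (δ T : ℝ) : ℝ := ∫ t in (-T)..T, 1 / ‖riemannZeta (((1 / 2 + δ : ℝ) : ℂ) + t * Complex.I)‖ ^ 2

lemma fz_cont {δ : ℝ} (hz : ∀ s : ℂ, 1 / 2 < s.re → Zs s ≠ 0) (hδ : 0 < δ) :
    Continuous (fun t : ℝ => fz (((1 / 2 + δ : ℝ) : ℂ) + t * Complex.I)) := by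
  rw [continuous_iff_continuousAt]
  intro t
  have h1 : Zs (((1 / 2 + δ : ℝ) : ℂ) + t * Complex.I) ≠ 0 := by
    apply hz
    simp
    exact hδ
  have h2 := (fz_differentiableAt h1).continuousAt
  exact ContinuousAt.comp (f := fun t : ℝ => ((1 / 2 + δ : ℝ) : ℂ) + t * Complex.I) (g := fz) h2
    (by fun_prop)

lemma fz_cont2 {δ : ℝ} (hz : ∀ s : ℂ, 1 / 2 < s.re → Zs s ≠ 0) (hδ : 0 < δ) :
    Continuous (fun ξ : ℝ => fz (((1 / 2 + δ : ℝ) : ℂ) + 2 * Real.pi * ξ * Complex.I)) := by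
  have h : Continuous (fun ξ : ℝ => fz (((1 / 2 + δ : ℝ) : ℂ) + ((2 * Real.pi * ξ : ℝ) : ℂ) * Complex.I)) :=
    (fz_cont hz hδ).comp (by fun_prop : Continuous fun ξ : ℝ => 2 * Real.pi * ξ)
  refine h.congr fun ξ => ?_
  push_cast
  rfl

lemma Wz_meas {δ : ℝ} (hz : ∀ s : ℂ, 1 / 2 < s.re → Zs s ≠ 0) (hδ : 0 < δ) : Measurable (Wz δ) := by
  unfold Wz
  exact ((fz_cont2 hz hδ).norm.pow 2).measurable.ennreal_ofReal

lemma mom2_eq {δ T : ℝ} (hz : ∀ s : ℂ, 1 / 2 < s.re → Zs s ≠ 0) (hδ : 0 < δ) (hT : 0 ≤ T) :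
    ENNReal.ofReal (mom2 δ T) = ENNReal.ofReal (2 * Real.pi) * Sm δ T := by
  have hpi := Real.pi_pos
  set G : ℝ → ℝ := fun t => ‖fz (((1 / 2 + δ : ℝ) : ℂ) + t * Complex.I)‖ ^ 2 with hG
  have hGc : Continuous G := (fz_cont hz hδ).norm.pow 2
  have e0 : mom2 δ T = ∫ t in (-T)..T, G t := by
    unfold mom2
    refine intervalIntegral.integral_congr_ae ?_
    have h0 : ({0}ᶜ : Set ℝ) ∈ ae (volume : Measure ℝ) := by
      rw [mem_ae_iff, compl_compl]; simp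
    filter_upwards [h0] with t ht _
    have hne : ((1 / 2 + δ : ℝ) : ℂ) + t * Complex.I ≠ 1 := by
      intro h
      have := congrArg Complex.im h
      simp at this
      exact ht this
    rw [hG]
    simp only
    rw [fz_eq hne, norm_inv, inv_pow, one_div]
  have e1 : ∫ t in (-T)..T, G t =
      (2 * Real.pi) * ∫ ξ in (-T / (2 * Real.pi))..(T / (2 * Real.pi)), G (2 * Real.pi * ξ) := by
    have := intervalIntegral.smul_integral_comp_mul_left (a := -T / (2 * Real.pi))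
      (b := T / (2 * Real.pi)) G (2 * Real.pi)
    rw [smul_eq_mul] at this
    rw [this]
    congr 1 <;> field_simp
  have hab : -T / (2 * Real.pi) ≤ T / (2 * Real.pi) := by
    rw [div_le_div_iff_of_pos_right (by positivity)]
    linarith
  rw [e0, e1, ENNReal.ofReal_mul (by positivity)]
  congr 1
  unfold Sm
  have hset : {ξ : ℝ | |2 * Real.pi * ξ| ≤ T} = Icc (-T / (2 * Real.pi)) (T / (2 * Real.pi)) := by
    ext ξ
    rw [mem_setOf_eq, mem_Icc, abs_le, div_le_iff₀ (by positivity), le_div_iff₀ (by positivity),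
      mul_comm ξ]
  rw [hset, intervalIntegral.integral_of_le hab, ← integral_Icc_eq_integral_Ioc,
    ofReal_integral_eq_lintegral_ofReal]
  · refine lintegral_congr fun ξ => ?_
    unfold Wz
    rw [hG]
    simp only
    push_cast
    rfl
  · exact ((hGc.comp (by fun_prop)).continuousOn).integrableOn_Icc
  · exact Eventually.of_forall fun ξ => by simp only [hG, Pi.zero_apply]; positivity

lemma D2_eq {τ δ : ℝ} (hz : ∀ s : ℂ, 1 / 2 < s.re → Zs s ≠ 0) (hδ : 0 < δ) (hδ1 : δ ≤ 1) (hτ : 0 < τ)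
    (hτ1 : τ ≤ 1) :
    D2 τ δ = ∫⁻ ξ : ℝ, ENNReal.ofReal
      ((τ * ‖phi τ (((1 / 2 + δ : ℝ) : ℂ) + 2 * Real.pi * ξ * Complex.I)‖) ^ 2) * Wz δ ξ := by
  set σ : ℝ := 1 / 2 + δ with hσ
  set σ' : ℝ := 1 / 2 + δ / 2 with hσ'
  obtain ⟨CM, hCM0, hCM⟩ := mertens_bound (θ := 1 / 2) (σ := σ') (by norm_num) hz (by rw [hσ']; linarith)
    (by rw [hσ']; linarith)
  have hk := kM_nice hCM0 hCM
  obtain ⟨p1, p2⟩ := planch_kM (a := σ') (σ := σ) (τ := τ)
    (fun s hs => hz s (lt_trans (by rw [hσ']; linarith) hs)) hk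
    (by rw [hσ']; linarith) (by rw [hσ']; linarith) (by rw [hσ', hσ]; linarith) hτ
  obtain ⟨C, _, hC⟩ := diff_bound (θ := 1 / 2) (σ := σ) (ε := 1 / 3) (by norm_num) hz
    (by rw [hσ]; linarith) (by rw [hσ]; linarith) (by norm_num) (by norm_num)
  obtain ⟨_, hi⟩ := hC τ hτ hτ1
  unfold D2
  rw [← ofReal_integral_eq_lintegral_ofReal hi (Eventually.of_forall fun u => by positivity), ← p2,
    ofReal_integral_eq_lintegral_ofReal p1 (Eventually.of_forall fun u => by positivity)]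
  refine lintegral_congr fun ξ => ?_
  unfold Wz
  rw [← ENNReal.ofReal_mul (by positivity), mul_pow]

/-- lower bound -/
lemma D2_lower {T δ : ℝ} (hz : ∀ s : ℂ, 1 / 2 < s.re → Zs s ≠ 0) (hδ : 0 < δ) (hδ1 : δ ≤ 1)
    (hT : 1 ≤ T) :
    ENNReal.ofReal (1 / (256 * T ^ 2)) * Sm δ T ≤ D2 (1 / (8 * T)) δ := by
  have hT0 : 0 < T := by linarith
  have hτ : 0 < 1 / (8 * T) := by positivity
  have hτ1 : 1 / (8 * T) ≤ 1 := by
    rw [div_le_one (by positivity)]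
    linarith
  rw [D2_eq hz hδ hδ1 hτ hτ1]
  unfold Sm
  rw [← lintegral_const_mul' _ _ ENNReal.ofReal_ne_top]
  refine le_trans ?_ (setLIntegral_le_lintegral {ξ : ℝ | |2 * Real.pi * ξ| ≤ T} _)
  refine setLIntegral_mono' (measurableSet_le (by fun_prop) measurable_const) fun ξ hξ => ?_
  refine mul_le_mul' (ENNReal.ofReal_le_ofReal ?_) le_rfl
  have h1 := Pool.Agent.H448R2.GC.PL.KK_lower (1 / (8 * T)) (1 / 2 + δ) (2 * Real.pi * ξ) T hT rfl
    (by positivity) (by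
      have : |2 * Real.pi * ξ| ≤ T := hξ
      linarith)
  have h2 : ‖Pool.Agent.H448R2.GC.PL.KK (1 / (8 * T))
      (((1 / 2 + δ : ℝ) : ℂ) + ((2 * Real.pi * ξ : ℝ) : ℂ) * Complex.I)‖ =
      (1 / (8 * T)) * ‖phi (1 / (8 * T)) (((1 / 2 + δ : ℝ) : ℂ) + 2 * Real.pi * ξ * Complex.I)‖ := by
    have hs0 : ((1 / 2 + δ : ℝ) : ℂ) + 2 * Real.pi * ξ * Complex.I ≠ 0 := by
      intro h
      have := congrArg Complex.re h
      rw [line_re] at this
      simp at this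
      linarith
    rw [phi_eq_integral hτ hs0, norm_mul, norm_div, norm_one, Complex.norm_real,
      Real.norm_of_nonneg hτ.le]
    unfold Pool.Agent.H448R2.GC.PL.KK
    push_cast
    rw [← mul_assoc]
    have : (1 / (8 * T)) * (1 / (1 / (8 * T))) = 1 := by field_simp
    rw [this, one_mul]
  rw [h2] at h1
  have h3 := pow_le_pow_left₀ (by positivity) h1 2
  refine le_trans (le_of_eq ?_) h3
  field_simp
  norm_num

/-- upper bound -/
lemma D2_upper {τ δ C : ℝ} (hz : ∀ s : ℂ, 1 / 2 < s.re → Zs s ≠ 0) (hδ : 0 < δ) (hδ1 : δ ≤ 1)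
    (hτ : 0 < τ) (hτ1 : τ ≤ 1) (hC : 0 ≤ C) (hS : ∀ R : ℝ, 1 ≤ R → Sm δ R ≤ ENNReal.ofReal (C * R)) :
    D2 τ δ ≤ ENNReal.ofReal (9375 * C * τ) := by
  rw [D2_eq hz hδ hδ1 hτ hτ1]
  have h1 := tonelli_pow (w := Wz δ) (Wz_meas hz hδ) (A := C) (R₀ := 1 / τ) hC (by positivity)
    (fun R hR => hS R (le_trans (by rw [le_div_iff₀ hτ]; linarith) hR))
  calc ∫⁻ ξ : ℝ, ENNReal.ofReal
        ((τ * ‖phi τ (((1 / 2 + δ : ℝ) : ℂ) + 2 * Real.pi * ξ * Complex.I)‖) ^ 2) * Wz δ ξ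
      ≤ ∫⁻ ξ : ℝ, ENNReal.ofReal 3125 *
        (Wz δ ξ * ENNReal.ofReal (1 / ((1 / τ) ^ 2 + |2 * Real.pi * ξ| ^ 2))) := by
        refine lintegral_mono fun ξ => ?_
        rw [mul_comm (Wz δ ξ), ← mul_assoc, ← ENNReal.ofReal_mul (by norm_num)]
        refine mul_le_mul' (ENNReal.ofReal_le_ofReal ?_) le_rfl
        set s : ℂ := ((1 / 2 + δ : ℝ) : ℂ) + 2 * Real.pi * ξ * Complex.I with hs
        have hre : s.re = 1 / 2 + δ := by rw [hs, line_re]
        have him : s.im = 2 * Real.pi * ξ := by rw [hs, line_im]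
        have a1 := norm_phi_pow2 (a := 2) (s := s) hτ hτ1 (by rw [hre]; linarith) (by rw [hre]; linarith)
          (by norm_num) le_rfl
        have a2 := norm_phi_le (s := s) hτ hτ1 (by rw [hre]; linarith) (by rw [hre]; linarith)
        rw [him] at a1
        set t : ℝ := |2 * Real.pi * ξ| with ht
        have ht0 : 0 ≤ t := abs_nonneg _
        have hb : 0 < τ * (1 + t) := by positivity
        have a3 : (τ * (1 + t)) ^ (-(2:ℝ)) = 1 / (τ * (1 + t)) ^ 2 := by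
          rw [Real.rpow_neg hb.le, one_div]
          congr 1
          exact_mod_cast Real.rpow_natCast (τ * (1 + t)) 2
        rw [a3] at a1
        have a4 : ‖phi τ s‖ ^ 2 * (τ ^ 2 * t ^ 2) ≤ 3025 := by
          have a5 : τ ^ 2 * t ^ 2 ≤ (τ * (1 + t)) ^ 2 := by
            rw [← mul_pow]
            apply pow_le_pow_left₀ (by positivity)
            nlinarith
          calc ‖phi τ s‖ ^ 2 * (τ ^ 2 * t ^ 2) ≤ (3025 * (1 / (τ * (1 + t)) ^ 2)) * (τ * (1 + t)) ^ 2 := by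
                gcongr
            _ = 3025 := by field_simp
        have a6 : ‖phi τ s‖ ^ 2 ≤ 100 := by nlinarith [norm_nonneg (phi τ s)]
        have a7 : ‖phi τ s‖ ^ 2 * (1 + τ ^ 2 * t ^ 2) ≤ 3125 := by linarith
        have e1 : 3125 * (1 / ((1 / τ) ^ 2 + t ^ 2)) = τ ^ 2 * (3125 / (1 + τ ^ 2 * t ^ 2)) := by
          field_simp
        rw [e1, mul_pow]
        apply mul_le_mul_of_nonneg_left _ (by positivity)
        rw [le_div_iff₀ (by positivity)]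
        exact a7
    _ = ENNReal.ofReal 3125 * ∫⁻ ξ : ℝ,
        Wz δ ξ * ENNReal.ofReal (1 / ((1 / τ) ^ 2 + |2 * Real.pi * ξ| ^ 2)) :=
        lintegral_const_mul' _ _ ENNReal.ofReal_ne_top
    _ ≤ ENNReal.ofReal 3125 * ENNReal.ofReal (3 * C / (1 / τ)) := mul_le_mul' le_rfl h1
    _ = ENNReal.ofReal (9375 * C * τ) := by
        rw [← ENNReal.ofReal_mul (by norm_num)]
        congr 1
        field_simp
        ring

end

end Pool.Agent.J6H10.GC
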