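import Pool.Agent.J6H10.GC.B2

/-! # The mean of the variance over the scales and the differences at a fixed ratio -/

set_option autoImplicit false

open MeasureTheory Filter Topology Set
open Pool.Agent.H295R2 hiding VV
open Pool.Agent.H448R2.GC (Mer VV)
open Pool.Agent.H448R2.GC.VA (DD)
open Pool.Agent.K1H70.GC (JV QQ QM)

namespace Pool.Agent.J6H10.GC

noncomputable section

lemma DD_eq (τ x : ℝ) : DD (Real.exp τ) x = Gd τ x := by
  unfold DD Gd
  rw [mul_comm (Real.exp τ)]

lemma Mer_small {y : ℝ} (hy : y < 1) : Mer y = 0 := by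
  unfold Pool.Agent.H448R2.GC.Mer
  have : ⌊y⌋₊ = 0 := Nat.floor_eq_zero.2 hy
  rw [this]
  simp

lemma Mer_one {y : ℝ} (h1 : 1 ≤ y) (h2 : y < 2) : Mer y = 1 := by
  unfold Pool.Agent.H448R2.GC.Mer
  have : ⌊y⌋₊ = 1 := by
    rw [Nat.floor_eq_iff (by linarith)]
    constructor
    · simpa using h1
    · norm_num
      exact h2
  rw [this]
  simp

lemma Mer_two {y : ℝ} (h1 : 2 ≤ y) (h2 : y < 3) : Mer y = 0 := by
  unfold Pool.Agent.H448R2.GC.Mer
  have : ⌊y⌋₊ = 2 := by
    rw [Nat.floor_eq_iff (by linarith)]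
    constructor
    · simpa using h1
    · norm_num
      exact h2
  rw [this]
  have h2p : ArithmeticFunction.moebius 2 = -1 := ArithmeticFunction.moebius_apply_prime Nat.prime_two
  rw [show Finset.Icc 1 2 = {1, 2} by decide]
  simp [h2p]

/-- the small scales -/
lemma small_scales {T : ℝ} (hT : 16 ≤ T) :
    ∫⁻ y in Ioc (0 : ℝ) 2, ENNReal.ofReal (Gd (1 / (8 * T)) y / y ^ 2) ≤ ENNReal.ofReal (2 / T) := by
  have hT0 : 0 < T := by linarith
  set v : ℝ := Real.exp (1 / (8 * T)) with hv
  have hv1 : 1 < v := Real.one_lt_exp_iff.2 (by positivity)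
  have hv0 : 0 < v := by linarith
  have hv2 : v ≤ 1 + 9 / (64 * T) := Pool.Agent.H448R2.GC.SV.exp_bound (by linarith)
  have hv3 : v < 3 / 2 := by
    have : 9 / (64 * T) < 1 / 2 := by
      rw [div_lt_div_iff₀ (by positivity) (by norm_num)]
      linarith
    linarith
  set S : Set ℝ := Ico (1 / v) 1 ∪ Icc (2 / v) 2 with hS
  have hSm : MeasurableSet S := measurableSet_Ico.union measurableSet_Icc
  have hpt : ∀ y ∈ Ioc (0 : ℝ) 2, ENNReal.ofReal (Gd (1 / (8 * T)) y / y ^ 2) ≤
      S.indicator (fun _ => ENNReal.ofReal 4) y := by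
    intro y hy
    by_cases hyS : y ∈ S
    · rw [indicator_of_mem hyS]
      apply ENNReal.ofReal_le_ofReal
      have hy2 : 1 / 2 ≤ y := by
        rcases hyS with h | h
        · refine le_trans ?_ h.1
          rw [div_le_div_iff₀ (by norm_num) hv0]
          linarith
        · refine le_trans ?_ h.1
          rw [div_le_div_iff₀ (by norm_num) hv0]
          linarith
      have hG : Gd (1 / (8 * T)) y ≤ 1 := by
        unfold Gd
        rw [← hv]
        have hm : ∀ z : ℝ, z < 3 → Mer z = 0 ∨ Mer z = 1 := by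
          intro z hz
          rcases lt_or_ge z 1 with h | h
          · exact Or.inl (Mer_small h)
          · rcases lt_or_ge z 2 with h' | h'
            · exact Or.inr (Mer_one h h')
            · exact Or.inl (Mer_two h' hz)
        have h1 := hm (y * v) (by nlinarith [hy.2])
        have h2 := hm y (by linarith [hy.2])
        rcases h1 with h1 | h1 <;> rcases h2 with h2 | h2 <;> rw [h1, h2] <;> norm_num
      rw [div_le_iff₀ (by positivity)]
      nlinarith
    · rw [indicator_of_notMem hyS]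
      have hG : Gd (1 / (8 * T)) y = 0 := by
        unfold Gd
        rw [← hv]
        rw [hS, mem_union, not_or, mem_Ico, mem_Icc, not_and_or, not_and_or] at hyS
        obtain ⟨h1, h2⟩ := hyS
        rcases h1 with h1 | h1
        · have h3 : y * v < 1 := by
            rw [not_le, lt_div_iff₀ hv0] at h1
            exact h1
          have h4 : y < 1 := by nlinarith [hy.1]
          rw [Mer_small h3, Mer_small h4]
          norm_num
        · rcases h2 with h2 | h2
          · have h3 : y * v < 2 := by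
              rw [not_le, lt_div_iff₀ hv0] at h2
              exact h2
            have h4 : 1 ≤ y := not_lt.1 h1
            rw [Mer_one (by nlinarith) h3, Mer_one h4 (by nlinarith)]
            norm_num
          · exact absurd hy.2 h2
      rw [hG, zero_div, ENNReal.ofReal_zero]
  refine (setLIntegral_mono' measurableSet_Ioc hpt).trans ?_
  refine (setLIntegral_le_lintegral _ _).trans ?_
  rw [lintegral_indicator hSm, setLIntegral_const]
  have hvol : volume S ≤ ENNReal.ofReal (3 * (9 / (64 * T))) := by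
    refine (measure_union_le _ _).trans ?_
    rw [Real.volume_Ico, Real.volume_Icc, ← ENNReal.ofReal_add]
    · apply ENNReal.ofReal_le_ofReal
      have h1 : 1 - 1 / v ≤ 9 / (64 * T) := by
        have : 1 - 1 / v = (v - 1) / v := by field_simp
        rw [this, div_le_iff₀ hv0]
        have h0 : 0 ≤ 9 / (64 * T) := by positivity
        nlinarith
      have h2 : 2 - 2 / v = 2 * (1 - 1 / v) := by ring
      rw [h2]
      linarith
    · have : 1 / v ≤ 1 := by
        rw [div_le_one hv0]
        linarith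
      linarith
    · have : 2 / v ≤ 2 := by
        rw [div_le_iff₀ hv0]
        linarith
      linarith
  refine (mul_le_mul' le_rfl hvol).trans ?_
  rw [← ENNReal.ofReal_mul (by norm_num)]
  apply ENNReal.ofReal_le_ofReal
  rw [le_div_iff₀ hT0]
  field_simp
  norm_num

/-- the growth of the mean squares at a fixed ratio -/
lemma growth_y {T N I : ℝ} (hT : 16 ≤ T) (hN : 2 ≤ N) (hI : ∫ X in (1 : ℝ)..(4 * N), JV T X ≤ I)
    (hI0 : 0 ≤ I) :
    ∫⁻ y in Ioc (0 : ℝ) N, ENNReal.ofReal (Gd (1 / (8 * T)) y / y ^ 2) ≤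
      ENNReal.ofReal ((288 * I + 2) / T) := by
  have hT0 : 0 < T := by linarith
  have h1 := Pool.Agent.K1H70.GC.DD_le T (Real.exp (1 / (8 * T))) 2 N hT
    (Real.one_le_exp (by positivity)) le_rfl (by norm_num) hN
  have h2 := Pool.Agent.K1H70.GC.QM_le_QV T 1 (4 * N) hT0 one_pos
  rw [mul_one, Pool.Agent.K1H70.GC.QV_real hT0 one_pos (by linarith)] at h2
  have h3 : ∫⁻ x in Ioc 2 N, ENNReal.ofReal (Gd (1 / (8 * T)) x / x ^ 2) ≤
      ENNReal.ofReal (288 * I / T) := by
    simp_rw [DD_eq] at h1
    refine h1.trans ((mul_le_mul' le_rfl h2).trans ?_)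
    have c2 : (2 : ENNReal) = ENNReal.ofReal 2 := by simp
    rw [c2, ← ENNReal.ofReal_mul (by norm_num), ← ENNReal.ofReal_mul (by positivity)]
    apply ENNReal.ofReal_le_ofReal
    calc 144 / T * (2 * ∫ X in (1 : ℝ)..(4 * N), JV T X) ≤ 144 / T * (2 * I) := by gcongr
      _ = 288 * I / T := by ring
  have h4 : ∫⁻ y in Ioc (0 : ℝ) N, ENNReal.ofReal (Gd (1 / (8 * T)) y / y ^ 2) =
      (∫⁻ y in Ioc (0 : ℝ) 2, ENNReal.ofReal (Gd (1 / (8 * T)) y / y ^ 2)) +
      ∫⁻ y in Ioc 2 N, ENNReal.ofReal (Gd (1 / (8 * T)) y / y ^ 2) := by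
    rw [← Ioc_union_Ioc_eq_Ioc (by norm_num : (0 : ℝ) ≤ 2) hN,
      lintegral_union measurableSet_Ioc (Ioc_disjoint_Ioc_of_le le_rfl)]
  rw [h4]
  refine (add_le_add (small_scales hT) h3).trans ?_
  rw [← ENNReal.ofReal_add (by positivity) (by positivity)]
  apply ENNReal.ofReal_le_ofReal
  rw [← add_div]
  apply div_le_div_of_nonneg_right _ hT0.le
  linarith

/-- the differences, weighted by `e^{-u}` -/
def gu (τ u : ℝ) : ENNReal := ENNReal.ofReal (‖kM (u + τ) - kM u‖ ^ 2 * Real.exp (-u))

lemma gu_meas (τ : ℝ) : Measurable (gu τ) := by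
  unfold gu
  refine Measurable.ennreal_ofReal ?_
  refine Measurable.mul ?_ (by fun_prop)
  exact ((kM_meas.comp (measurable_id.add_const τ)).sub kM_meas).norm.pow_const 2

lemma gu_zero {τ u : ℝ} (hτ1 : τ ≤ 1) (hu : u < -1) : gu τ u = 0 := by
  unfold gu
  rw [kM_zero (by linarith), kM_zero (by linarith)]
  simp

lemma gu_int (τ L : ℝ) :
    ∫⁻ u in Iic L, gu τ u = ∫⁻ y in Ioc (0 : ℝ) (Real.exp L), ENNReal.ofReal (Gd τ y / y ^ 2) := by
  have h1 : ∫⁻ y in Ioc (0 : ℝ) (Real.exp L), ENNReal.ofReal (Gd τ y / y ^ 2) =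
      ∫⁻ y in Ioi (0 : ℝ), (Iic (Real.exp L)).indicator (fun y => ENNReal.ofReal (Gd τ y / y ^ 2)) y := by
    rw [setLIntegral_indicator measurableSet_Iic, inter_comm, ← Ioi_inter_Iic]
  rw [h1, lint_exp, ← lintegral_indicator measurableSet_Iic]
  refine lintegral_congr fun u => ?_
  by_cases hu : u ≤ L
  · rw [indicator_of_mem (show u ∈ Iic L from hu),
      indicator_of_mem (show Real.exp u ∈ Iic (Real.exp L) from Real.exp_le_exp.2 hu),
      ← ENNReal.ofReal_mul (Real.exp_pos u).le]
    unfold gu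
    congr 1
    rw [Gd_exp, Real.exp_neg]
    have := (Real.exp_pos u).ne'
    field_simp
  · rw [indicator_of_notMem (show u ∉ Iic L from hu),
      indicator_of_notMem (show Real.exp u ∉ Iic (Real.exp L) from fun hc => hu (Real.exp_le_exp.1 hc)),
      mul_zero]

lemma D2_gu (τ δ : ℝ) : D2 τ δ = ∫⁻ u, gu τ u * ENNReal.ofReal (Real.exp (-(2 * δ * u))) := by
  unfold D2 gu
  refine lintegral_congr fun u => ?_
  rw [← ENNReal.ofReal_mul (by positivity), mul_assoc (‖kM (u + τ) - kM u‖ ^ 2), ← Real.exp_add]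
  congr 3
  ring

/-- the mean square of `M` itself from the mean square of its differences -/
lemma JJ_le {τ L I : ℝ} (hτ : 0 < τ) (hI : 0 ≤ I)
    (h : ∫⁻ u in Iic L, gu τ u ≤ ENNReal.ofReal I) :
    JJ L ≤ 1 / (Real.exp (τ / 2) - 1) ^ 2 * I := by
  set q : ℝ := Real.exp (τ / 2) with hq
  have hq1 : 1 < q := Real.one_lt_exp_iff.2 (by positivity)
  have hq0 : 0 < q := by linarith
  set P : ℝ → ENNReal := fun u => ENNReal.ofReal (‖kM u‖ ^ 2 * Real.exp (-u)) with hP
  have hPm : Measurable P := by
    rw [hP]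
    refine Measurable.ennreal_ofReal ?_
    exact (kM_meas.norm.pow_const 2).mul (by fun_prop)
  have hPJ : ∫⁻ u in Iic L, P u = ENNReal.ofReal (JJ L) := by
    have e1 : ∫⁻ u in Iic L, P u = ∫⁻ u in Ioc 0 L, P u := by
      rw [← lintegral_indicator measurableSet_Iic, ← lintegral_indicator measurableSet_Ioc]
      refine lintegral_congr_ae ?_
      have h0 : ({0}ᶜ : Set ℝ) ∈ ae (volume : Measure ℝ) := by
        rw [mem_ae_iff, compl_compl]; simp
      filter_upwards [h0] with u hu
      have hu0 : u ≠ 0 := by simpa using hu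
      rcases lt_or_gt_of_ne hu0 with h1 | h1
      · rw [indicator_of_notMem (show u ∉ Ioc 0 L from fun hc => by linarith [hc.1])]
        have : P u = 0 := by
          rw [hP]
          simp only
          rw [kM_zero h1]
          simp
        by_cases h2 : u ∈ Iic L
        · rw [indicator_of_mem h2, this]
        · rw [indicator_of_notMem h2]
      · by_cases h2 : u ≤ L
        · rw [indicator_of_mem (show u ∈ Iic L from h2), indicator_of_mem (show u ∈ Ioc 0 L from ⟨h1, h2⟩)]
        · rw [indicator_of_notMem (show u ∉ Iic L from h2),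
            indicator_of_notMem (show u ∉ Ioc 0 L from fun hc => h2 hc.2)]
    rw [e1]
    unfold JJ
    rw [ofReal_integral_eq_lintegral_ofReal (JJ_integrable L) (Eventually.of_forall fun s => by positivity)]
    refine lintegral_congr fun s => ?_
    rw [hP]
    simp only
    unfold kM
    rw [Complex.norm_real, Real.norm_eq_abs, sq_abs]
  have key : ∫⁻ u in Iic L, P u ≤ ENNReal.ofReal (1 / q) * (∫⁻ u in Iic L, P u) +
      ENNReal.ofReal (1 / (q * (q - 1))) * ∫⁻ u in Iic L, gu τ u := by
    have e1 : ∫⁻ u in Iic L, P u = ∫⁻ u in Iic (L - τ), P (u + τ) := by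
      rw [← lintegral_indicator measurableSet_Iic, ← lintegral_indicator measurableSet_Iic,
        ← lintegral_add_right_eq_self (fun u => (Iic L).indicator P u) τ]
      refine lintegral_congr fun u => ?_
      by_cases h1 : u ≤ L - τ
      · rw [indicator_of_mem (show u ∈ Iic (L - τ) from h1),
          indicator_of_mem (show u + τ ∈ Iic L from by rw [mem_Iic]; linarith)]
      · rw [indicator_of_notMem (show u ∉ Iic (L - τ) from h1),
          indicator_of_notMem (show u + τ ∉ Iic L from fun hc => h1 (by rw [mem_Iic] at hc; linarith))]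
    have e2 : ∀ u, P (u + τ) ≤ ENNReal.ofReal (1 / q) * P u +
        ENNReal.ofReal (1 / (q * (q - 1))) * gu τ u := by
      intro u
      rw [hP]
      simp only
      unfold gu
      rw [← ENNReal.ofReal_mul (by positivity), ← ENNReal.ofReal_mul (by
        have : 0 < q - 1 := by linarith
        positivity), ← ENNReal.ofReal_add (by positivity) (by
        have : 0 < q - 1 := by linarith
        positivity)]
      apply ENNReal.ofReal_le_ofReal
      have e3 : Real.exp (-(u + τ)) = Real.exp (-u) * (1 / q ^ 2) := by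
        rw [hq, ← Real.exp_nat_mul, one_div, ← Real.exp_neg, ← Real.exp_add]
        congr 1
        push_cast
        ring
      rw [e3]
      set a := ‖kM u‖ with ha
      set b := ‖kM (u + τ) - kM u‖ with hb
      have h1 : ‖kM (u + τ)‖ ≤ a + b := by
        have := norm_add_le (kM u) (kM (u + τ) - kM u)
        rwa [add_sub_cancel] at this
      have h2 : ‖kM (u + τ)‖ ^ 2 ≤ (a + b) ^ 2 := pow_le_pow_left₀ (norm_nonneg _) h1 2
      have h3 : (a + b) ^ 2 ≤ q * a ^ 2 + q / (q - 1) * b ^ 2 := by
        have hq2 : 0 < q - 1 := by linarith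
        have h4 : 0 ≤ ((q - 1) * a - b) ^ 2 / (q - 1) := by positivity
        have h5 : ((q - 1) * a - b) ^ 2 / (q - 1) = q * a ^ 2 + q / (q - 1) * b ^ 2 - (a + b) ^ 2 := by
          field_simp
          ring
        linarith
      calc ‖kM (u + τ)‖ ^ 2 * (Real.exp (-u) * (1 / q ^ 2))
          ≤ (q * a ^ 2 + q / (q - 1) * b ^ 2) * (Real.exp (-u) * (1 / q ^ 2)) := by
            gcongr
            exact h2.trans h3
        _ = 1 / q * (a ^ 2 * Real.exp (-u)) + 1 / (q * (q - 1)) * (b ^ 2 * Real.exp (-u)) := by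
            have hq2 : q - 1 ≠ 0 := by
              have : 0 < q - 1 := by linarith
              exact this.ne'
            field_simp
    calc ∫⁻ u in Iic L, P u = ∫⁻ u in Iic (L - τ), P (u + τ) := e1
      _ ≤ ∫⁻ u in Iic (L - τ), (ENNReal.ofReal (1 / q) * P u +
          ENNReal.ofReal (1 / (q * (q - 1))) * gu τ u) := lintegral_mono fun u => e2 u
      _ ≤ ∫⁻ u in Iic L, (ENNReal.ofReal (1 / q) * P u +
          ENNReal.ofReal (1 / (q * (q - 1))) * gu τ u) :=
          lintegral_mono_set (Iic_subset_Iic.2 (by linarith))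
      _ = _ := by
          rw [lintegral_add_left (hPm.const_mul _), lintegral_const_mul _ hPm,
            lintegral_const_mul _ (gu_meas τ)]
  rw [hPJ] at key
  have hJ0 := JJ_nonneg L
  have key2 : ENNReal.ofReal (JJ L) ≤ ENNReal.ofReal (1 / q * JJ L + 1 / (q * (q - 1)) * I) := by
    have hq2 : 0 < q - 1 := by linarith
    rw [ENNReal.ofReal_add (by positivity) (by positivity), ENNReal.ofReal_mul (by positivity),
      ENNReal.ofReal_mul (by positivity)]
    exact key.trans (add_le_add le_rfl (mul_le_mul' le_rfl h))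
  have hq2 : 0 < q - 1 := by linarith
  have key3 : JJ L ≤ 1 / q * JJ L + 1 / (q * (q - 1)) * I := by
    rwa [ENNReal.ofReal_le_ofReal_iff (by positivity)] at key2
  have key4 : JJ L * (q - 1) ≤ 1 / (q - 1) * I := by
    have h1 : JJ L * q ≤ (1 / q * JJ L + 1 / (q * (q - 1)) * I) * q :=
      mul_le_mul_of_nonneg_right key3 hq0.le
    have h2 : (1 / q * JJ L + 1 / (q * (q - 1)) * I) * q = JJ L + 1 / (q - 1) * I := by
      field_simp
    linarith
  have h3 : 1 / (q - 1) ^ 2 * I = 1 / (q - 1) * I / (q - 1) := by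
    field_simp
  rw [h3, le_div_iff₀ hq2]
  exact key4

end

end Pool.Agent.J6H10.GC
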