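import Pool.Agent.J6H10.GC.B3

/-! # The equivalence with the second moment of `1/ζ` -/

set_option autoImplicit false

open MeasureTheory Filter Topology Set
open Pool.Agent.H295R2 hiding VV
open Pool.Agent.K1H70.GC (JV QQ QM)

namespace Pool.Agent.J6H10.GC

noncomputable section

/-- Tonelli's theorem for the scales -/
lemma swap_scales {W : ℝ → ENNReal} (hW : Measurable W) {z : ℝ} (hz : 1 ≤ z) :
    ∫⁻ X in Ioc 1 z, ENNReal.ofReal (1 / X ^ 3) * ∫⁻ y in Ioc (X / 2) (3 * X), W y ≤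
      ∫⁻ y in Ioc (0 : ℝ) (3 * z), W y * ENNReal.ofReal (45 / y ^ 2) := by
  set F : ℝ → ℝ → ENNReal := fun X y =>
    {p : ℝ × ℝ | (1 < p.1 ∧ p.1 ≤ z) ∧ (p.1 / 2 < p.2 ∧ p.2 ≤ 3 * p.1)}.indicator
      (fun p => ENNReal.ofReal (1 / p.1 ^ 3) * W p.2) (X, y) with hF
  have hset : MeasurableSet {p : ℝ × ℝ | (1 < p.1 ∧ p.1 ≤ z) ∧ (p.1 / 2 < p.2 ∧ p.2 ≤ 3 * p.1)} :=
    ((measurableSet_lt measurable_const measurable_fst).inter
      (measurableSet_le measurable_fst measurable_const)).inter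
      ((measurableSet_lt (measurable_fst.div_const 2) measurable_snd).inter
      (measurableSet_le measurable_snd (measurable_fst.const_mul 3)))
  have hmeas : Measurable (fun p : ℝ × ℝ => F p.1 p.2) := by
    rw [hF]
    refine Measurable.indicator ?_ hset
    refine Measurable.mul (Measurable.ennreal_ofReal ?_) (hW.comp measurable_snd)
    exact measurable_const.div (measurable_fst.pow_const 3)
  have e1 : ∫⁻ X in Ioc 1 z, ENNReal.ofReal (1 / X ^ 3) * ∫⁻ y in Ioc (X / 2) (3 * X), W y =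
      ∫⁻ X, ∫⁻ y, F X y := by
    rw [← lintegral_indicator measurableSet_Ioc]
    refine lintegral_congr fun X => ?_
    by_cases hX : X ∈ Ioc 1 z
    · rw [indicator_of_mem hX, ← lintegral_const_mul' _ _ ENNReal.ofReal_ne_top,
        ← lintegral_indicator measurableSet_Ioc]
      refine lintegral_congr fun y => ?_
      simp only [hF]
      by_cases hy : y ∈ Ioc (X / 2) (3 * X)
      · rw [indicator_of_mem hy, indicator_of_mem (show (X, y) ∈ {p : ℝ × ℝ | (1 < p.1 ∧ p.1 ≤ z) ∧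
          (p.1 / 2 < p.2 ∧ p.2 ≤ 3 * p.1)} from ⟨⟨hX.1, hX.2⟩, hy.1, hy.2⟩)]
      · rw [indicator_of_notMem hy, indicator_of_notMem (show (X, y) ∉ {p : ℝ × ℝ | (1 < p.1 ∧ p.1 ≤ z) ∧
          (p.1 / 2 < p.2 ∧ p.2 ≤ 3 * p.1)} from fun hc => hy ⟨hc.2.1, hc.2.2⟩)]
    · rw [indicator_of_notMem hX]
      have : ∀ y, F X y = 0 := fun y => by
        rw [hF]
        exact indicator_of_notMem (show (X, y) ∉ {p : ℝ × ℝ | (1 < p.1 ∧ p.1 ≤ z) ∧
          (p.1 / 2 < p.2 ∧ p.2 ≤ 3 * p.1)} from fun hc => hX ⟨hc.1.1, hc.1.2⟩) _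
      simp only [this, lintegral_zero]
  rw [e1, lintegral_lintegral_swap hmeas.aemeasurable, ← lintegral_indicator measurableSet_Ioc]
  refine lintegral_mono fun y => ?_
  by_cases hy : y ∈ Ioc (0 : ℝ) (3 * z)
  · rw [indicator_of_mem hy]
    have hy0 := hy.1
    calc ∫⁻ X, F X y ≤ ∫⁻ X, (Ico (y / 3) (2 * y)).indicator
          (fun _ => ENNReal.ofReal (27 / y ^ 3) * W y) X := by
          refine lintegral_mono fun X => ?_
          rw [hF]
          simp only
          by_cases hX : (X, y) ∈ {p : ℝ × ℝ | (1 < p.1 ∧ p.1 ≤ z) ∧ (p.1 / 2 < p.2 ∧ p.2 ≤ 3 * p.1)}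
          · rw [indicator_of_mem hX]
            obtain ⟨⟨h1, h2⟩, h3, h4⟩ := hX
            simp only at h1 h2 h3 h4
            rw [indicator_of_mem (show X ∈ Ico (y / 3) (2 * y) from ⟨by linarith, by linarith⟩)]
            refine mul_le_mul' (ENNReal.ofReal_le_ofReal ?_) le_rfl
            have hX0 : 0 < X := by linarith
            rw [div_le_div_iff₀ (by positivity) (by positivity), one_mul]
            calc y ^ 3 ≤ (3 * X) ^ 3 := pow_le_pow_left₀ hy0.le h4 3
              _ = 27 * X ^ 3 := by ring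
          · rw [indicator_of_notMem hX]
            exact zero_le
      _ = ENNReal.ofReal (27 / y ^ 3) * W y * ENNReal.ofReal (2 * y - y / 3) := by
          rw [lintegral_indicator measurableSet_Ico, setLIntegral_const, Real.volume_Ico]
      _ = W y * ENNReal.ofReal (45 / y ^ 2) := by
          rw [mul_comm (ENNReal.ofReal (27 / y ^ 3)) (W y), mul_assoc, ← ENNReal.ofReal_mul (by positivity)]
          congr 2
          field_simp
          ring
  · rw [indicator_of_notMem hy]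
    refine le_of_eq (lintegral_eq_zero_of_ae_eq_zero (Eventually.of_forall fun X => ?_))
    rw [hF]
    simp only
    rw [indicator_of_notMem]
    · rfl
    · rintro ⟨⟨h1, h2⟩, h3, h4⟩
      simp only at h1 h2 h3 h4
      exact hy ⟨by linarith, by linarith⟩

/-- the mean of the variance over the scales from the bounds for the differences -/
lemma mean_le {T z δ K : ℝ} (hT : 16 ≤ T) (hz : 1 ≤ z) (hδ : 0 < δ) (hK : 0 ≤ K)
    (hD : ∀ τ : ℝ, 0 < τ → τ ≤ 1 → D2 τ δ ≤ ENNReal.ofReal (K * τ)) :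
    ∫ X in (1 : ℝ)..z, JV T X ≤ 377487360 * K * (3 * z) ^ (2 * δ) := by
  have hT0 : 0 < T := by linarith
  have hz0 : 0 < z := by linarith
  set b : ℝ := 16 / T with hb
  have hb0 : 0 < b := by positivity
  have hb1 : b ≤ 1 := by
    rw [hb, div_le_one hT0]
    exact hT
  have h1 := Pool.Agent.K1H70.GC.QV_real (T := T) hT0 one_pos hz
  have h2 : QQ (fun X H => ENNReal.ofReal (Pool.Agent.H448R2.GC.VV X H / (H ^ 2 * X))) T 16 4 1 z ≤
      ENNReal.ofReal (32768 * T ^ 2) *
        ∫⁻ X in Ioc 1 z, ENNReal.ofReal (1 / X ^ 3) * ∫⁻ y in Ioc (X / 2) (3 * X), Wd b y := by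
    unfold Pool.Agent.K1H70.GC.QQ
    rw [← lintegral_const_mul' _ _ ENNReal.ofReal_ne_top]
    refine setLIntegral_mono' measurableSet_Ioc fun X hX => ?_
    have hX0 : 0 < X := by linarith [hX.1]
    set Q : ENNReal := ∫⁻ y in Ioc (X / 2) (3 * X), Wd b y with hQ
    have h3 : ∀ H ∈ Ioc (X / (16 * T)) (4 * X / T),
        ENNReal.ofReal (Pool.Agent.H448R2.GC.VV X H / (H ^ 2 * X)) ≤
          ENNReal.ofReal (8192 * T ^ 3 / X ^ 4) * Q := by
      intro H hH
      have hH0 : 0 < H := lt_trans (by positivity) hH.1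
      have hHT : H * T ≤ 4 * X := by
        have := hH.2
        rwa [le_div_iff₀ hT0] at this
      have hHX : H ≤ X := by nlinarith
      have hVn := Pool.Agent.K1H70.GC.VV_nonneg hX0 hH0
      have h4 := VV_le hH0 hHX
      have h5 : ∫⁻ y in Ioc (X / 2) (3 * X), Wd (4 * (H / X)) y ≤ Q := by
        rw [hQ]
        refine lintegral_mono fun y => ?_
        unfold Wd
        apply lintegral_mono_set
        apply Ioc_subset_Ioc_right
        rw [hb, le_div_iff₀ hT0, mul_assoc, div_mul_eq_mul_div, ← mul_div_assoc, div_le_iff₀ hX0]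
        linarith
      have h6 : Pool.Agent.H448R2.GC.VV X H / (H ^ 2 * X) =
          (1 / (H ^ 3 * X)) * (H * Pool.Agent.H448R2.GC.VV X H) := by
        field_simp
      have h7 : 1 / (H ^ 3 * X) ≤ 4096 * T ^ 3 / X ^ 4 := by
        have h8 : X ≤ H * (16 * T) := by
          have := hH.1.le
          rwa [div_le_iff₀ (by positivity)] at this
        rw [div_le_div_iff₀ (by positivity) (by positivity), one_mul]
        calc X ^ 4 = X ^ 3 * X := by ring
          _ ≤ (H * (16 * T)) ^ 3 * X := by gcongr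
          _ = 4096 * T ^ 3 * (H ^ 3 * X) := by ring
      calc ENNReal.ofReal (Pool.Agent.H448R2.GC.VV X H / (H ^ 2 * X))
          = ENNReal.ofReal (1 / (H ^ 3 * X)) *
            (ENNReal.ofReal H * ENNReal.ofReal (Pool.Agent.H448R2.GC.VV X H)) := by
            rw [h6, ENNReal.ofReal_mul (by positivity), ENNReal.ofReal_mul hH0.le]
        _ ≤ ENNReal.ofReal (4096 * T ^ 3 / X ^ 4) * (2 * Q) :=
            mul_le_mul' (ENNReal.ofReal_le_ofReal h7) (h4.trans (mul_le_mul' le_rfl h5))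
        _ = ENNReal.ofReal (8192 * T ^ 3 / X ^ 4) * Q := by
            have c2 : (2 : ENNReal) = ENNReal.ofReal 2 := by simp
            rw [← mul_assoc, c2, ← ENNReal.ofReal_mul (by positivity)]
            congr 2
            ring
    calc ∫⁻ H in Ioc (X / (16 * T)) (4 * X / T),
          ENNReal.ofReal (Pool.Agent.H448R2.GC.VV X H / (H ^ 2 * X))
        ≤ ∫⁻ _H in Ioc (X / (16 * T)) (4 * X / T), ENNReal.ofReal (8192 * T ^ 3 / X ^ 4) * Q :=
          setLIntegral_mono' measurableSet_Ioc h3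
      _ = ENNReal.ofReal (8192 * T ^ 3 / X ^ 4) * Q * ENNReal.ofReal (4 * X / T - X / (16 * T)) := by
          rw [setLIntegral_const, Real.volume_Ioc]
      _ ≤ ENNReal.ofReal (8192 * T ^ 3 / X ^ 4) * Q * ENNReal.ofReal (4 * X / T) := by
          refine mul_le_mul' le_rfl (ENNReal.ofReal_le_ofReal ?_)
          have : 0 ≤ X / (16 * T) := by positivity
          linarith
      _ = ENNReal.ofReal (32768 * T ^ 2) * (ENNReal.ofReal (1 / X ^ 3) * Q) := by
          rw [mul_comm (ENNReal.ofReal (8192 * T ^ 3 / X ^ 4)) Q, mul_assoc,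
            ← ENNReal.ofReal_mul (by positivity), ← mul_assoc, ← ENNReal.ofReal_mul (by positivity),
            mul_comm]
          congr 2
          field_simp
          ring
  have h3 : ∫⁻ y in Ioc (0 : ℝ) (3 * z), Wd b y * ENNReal.ofReal (45 / y ^ 2) ≤
      ENNReal.ofReal (45 * (3 * z) ^ (2 * δ)) * ENNReal.ofReal (K * b * b) := by
    have e1 : ∫⁻ y in Ioc (0 : ℝ) (3 * z), Wd b y * ENNReal.ofReal (45 / y ^ 2) ≤
        ∫⁻ y in Ioc (0 : ℝ) (3 * z), ENNReal.ofReal (45 * (3 * z) ^ (2 * δ)) *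
          (Wd b y * ENNReal.ofReal (y ^ (-2 - 2 * δ))) := by
      refine setLIntegral_mono' measurableSet_Ioc fun y hy => ?_
      rw [mul_comm (Wd b y) (ENNReal.ofReal (y ^ (-2 - 2 * δ))), ← mul_assoc,
        ← ENNReal.ofReal_mul (by positivity), mul_comm (Wd b y)]
      refine mul_le_mul' (ENNReal.ofReal_le_ofReal ?_) le_rfl
      have hy0 := hy.1
      have h4 : y ^ (2 * δ) ≤ (3 * z) ^ (2 * δ) := Real.rpow_le_rpow hy0.le hy.2 (by positivity)
      have h5 : y ^ (2 * δ) * y ^ (-2 - 2 * δ) = 1 / y ^ 2 := by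
        rw [← Real.rpow_add hy0]
        have : 2 * δ + (-2 - 2 * δ) = -2 := by ring
        rw [this, Real.rpow_neg hy0.le, one_div]
        congr 1
        exact_mod_cast Real.rpow_natCast y 2
      calc 45 / y ^ 2 = 45 * (y ^ (2 * δ) * y ^ (-2 - 2 * δ)) := by rw [h5]; ring
        _ ≤ 45 * ((3 * z) ^ (2 * δ) * y ^ (-2 - 2 * δ)) := by gcongr
        _ = _ := by ring
    refine e1.trans ?_
    rw [lintegral_const_mul' _ _ ENNReal.ofReal_ne_top]
    refine mul_le_mul' le_rfl ?_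
    refine (lintegral_mono_set (show Ioc (0 : ℝ) (3 * z) ⊆ Ioi 0 from Ioc_subset_Ioi_self)).trans ?_
    have e2 : ∫⁻ y in Ioi (0 : ℝ), Wd b y * ENNReal.ofReal (y ^ (-2 - 2 * δ)) =
        ∫⁻ τ in Ioc 0 b, D2 τ δ := by
      have e3 : ∀ y : ℝ, Wd b y * ENNReal.ofReal (y ^ (-2 - 2 * δ)) =
          ∫⁻ τ in Ioc 0 b, ENNReal.ofReal (Gd τ y) * ENNReal.ofReal (y ^ (-2 - 2 * δ)) := by
        intro y
        unfold Wd
        rw [lintegral_mul_const' _ _ ENNReal.ofReal_ne_top]
      simp_rw [e3]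
      rw [lintegral_lintegral_swap]
      · refine lintegral_congr fun τ => ?_
        rw [lint_exp]
        unfold D2
        refine lintegral_congr fun u => ?_
        rw [Gd_exp, ← mul_assoc, ← ENNReal.ofReal_mul (Real.exp_pos u).le,
          ← ENNReal.ofReal_mul (by positivity)]
        congr 1
        rw [← Real.exp_mul, mul_comm (Real.exp u), mul_assoc, ← Real.exp_add]
        congr 2
        ring
      · have hm : Measurable (fun p : ℝ × ℝ => ENNReal.ofReal (Gd p.2 p.1) *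
            ENNReal.ofReal (p.1 ^ (-2 - 2 * δ))) :=
          (Gd_meas.comp measurable_swap).ennreal_ofReal.mul (measurable_fst.pow_const _).ennreal_ofReal
        exact hm.aemeasurable
    rw [e2]
    calc ∫⁻ τ in Ioc 0 b, D2 τ δ ≤ ∫⁻ _τ in Ioc 0 b, ENNReal.ofReal (K * b) := by
          refine setLIntegral_mono' measurableSet_Ioc fun τ hτ => ?_
          refine (hD τ hτ.1 (hτ.2.trans hb1)).trans (ENNReal.ofReal_le_ofReal ?_)
          exact mul_le_mul_of_nonneg_left hτ.2 hK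
      _ = ENNReal.ofReal (K * b * b) := by
          rw [setLIntegral_const, Real.volume_Ioc, sub_zero, ← ENNReal.ofReal_mul (by positivity)]
  have h4 : ENNReal.ofReal (∫ X in (1 : ℝ)..z, JV T X) ≤
      ENNReal.ofReal (32768 * T ^ 2 * (45 * (3 * z) ^ (2 * δ) * (K * b * b))) := by
    rw [← h1]
    refine h2.trans ((mul_le_mul' le_rfl ((swap_scales (Wd_meas b) hz).trans h3)).trans (le_of_eq ?_))
    rw [← ENNReal.ofReal_mul (by positivity), ← ENNReal.ofReal_mul (by positivity)]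
  have h5 : ∫ X in (1 : ℝ)..z, JV T X ≤ 32768 * T ^ 2 * (45 * (3 * z) ^ (2 * δ) * (K * b * b)) := by
    rwa [ENNReal.ofReal_le_ofReal_iff (by positivity)] at h4
  refine h5.trans (le_of_eq ?_)
  rw [hb]
  field_simp
  ring

lemma Zs_free (h : ∀ s : ℂ, 1 / 2 < s.re → riemannZeta s ≠ 0) : ∀ s : ℂ, 1 / 2 < s.re → Zs s ≠ 0 := by
  intro s hs
  by_cases h1 : s = 1
  · exact Zs_ne_zero_of_one_le (by rw [h1]; simp)
  · rw [← Zs_eq h1]
    exact mul_ne_zero (sub_ne_zero.mpr h1) (h s hs)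

lemma mom2_nonneg {δ T : ℝ} (hT : 0 ≤ T) : 0 ≤ mom2 δ T :=
  intervalIntegral.integral_nonneg (by linarith) fun _ _ => by positivity

/-- the bound for the differences from the bound for the means -/
lemma growth_u {T C : ℝ} (hT : 16 ≤ T) (hC : 0 ≤ C)
    (h : ∀ z : ℝ, 1 ≤ z → ∫ X in (1 : ℝ)..z, JV T X ≤ C * (1 + Real.log z)) {L : ℝ} (hL : 0 ≤ L) :
    ∫⁻ u in Iic L, gu (1 / (8 * T)) u ≤ ENNReal.ofReal ((1152 * C + 2) / T * (1 + L)) := by
  have hT0 : 0 < T := by linarith
  have hN : 2 ≤ 2 * Real.exp L := by linarith [Real.one_le_exp hL]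
  have h1 := h (4 * (2 * Real.exp L)) (by linarith)
  have h2 : 1 + Real.log (4 * (2 * Real.exp L)) ≤ 4 * (1 + L) := by
    have h3 : Real.log (4 * (2 * Real.exp L)) = 3 * Real.log 2 + L := by
      have : 4 * (2 * Real.exp L) = 2 ^ 3 * Real.exp L := by ring
      rw [this, Real.log_mul (by norm_num) (Real.exp_pos _).ne', Real.log_exp, Real.log_pow]
      norm_num
    rw [h3]
    have := Real.log_two_lt_d9
    linarith
  rw [gu_int]
  refine (lintegral_mono_set (show Ioc (0 : ℝ) (Real.exp L) ⊆ Ioc 0 (2 * Real.exp L) from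
    Ioc_subset_Ioc_right (by linarith [Real.exp_pos L]))).trans ?_
  refine (growth_y hT hN (I := C * (4 * (1 + L))) (h1.trans (by gcongr)) (by positivity)).trans ?_
  apply ENNReal.ofReal_le_ofReal
  rw [div_mul_eq_mul_div]
  apply div_le_div_of_nonneg_right _ hT0.le
  nlinarith

/-- the Riemann hypothesis from the bound for the means, along a sparse set of `z` -/
lemma free_of_mean {T A : ℝ} (hT : 16 ≤ T) (hA : 0 ≤ A)
    (h : ∃ᶠ L : ℝ in atTop, ∫⁻ u in Iic L, gu (1 / (8 * T)) u ≤ ENNReal.ofReal (A * (1 + L))) :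
    ∀ s : ℂ, 1 / 2 < s.re → riemannZeta s ≠ 0 := by
  have hτ : 0 < 1 / (8 * T) := by positivity
  set K : ℝ := 1 / (Real.exp (1 / (8 * T) / 2) - 1) ^ 2 with hK
  have hK0 : 0 ≤ K := by positivity
  have h1 : ∃ᶠ L : ℝ in atTop, JW ((1 - 1) * L) L ≤ (K * A * 2) * L := by
    refine (h.and_eventually (eventually_ge_atTop 1)).mono ?_
    rintro L ⟨h2, h3⟩
    have h4 := JJ_le hτ (by positivity) h2
    rw [sub_self, zero_mul]
    have e : JW 0 L = JJ L := rfl
    rw [e]
    refine h4.trans ?_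
    rw [← hK]
    have : 0 ≤ K * A := by positivity
    nlinarith
  have h2 := window_RH (δ := 1) one_pos le_rfl h1
  intro s hs hz
  have hlt : s.re < 1 := by
    by_contra hc
    exact riemannZeta_ne_zero_of_one_le_re (not_lt.1 hc) hz
  have h4 : s.re ≤ 1 / 2 := (le_csSup zset_bdd ⟨s, ⟨hz, by linarith, hlt⟩, rfl⟩).trans h2
  linarith

/-- from the means to the second moment, for one `T` -/
theorem moment_of_mean {T C : ℝ} (hT : 16 ≤ T) (hC : 0 ≤ C)
    (h : ∀ z : ℝ, 1 ≤ z → ∫ X in (1 : ℝ)..z, JV T X ≤ C * (1 + Real.log z)) :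
    (∀ s : ℂ, 1 / 2 < s.re → riemannZeta s ≠ 0) ∧
    ∀ δ : ℝ, 0 < δ → δ ≤ 1 → Sm δ T ≤ ENNReal.ofReal (5120 * (1152 * C + 2) * T / δ) := by
  have hT0 : 0 < T := by linarith
  have hg : ∀ L : ℝ, 0 ≤ L → ∫⁻ u in Iic L, gu (1 / (8 * T)) u ≤
      ENNReal.ofReal ((1152 * C + 2) / T * (1 + L)) := fun L hL => growth_u hT hC h hL
  have hfree := free_of_mean hT (A := (1152 * C + 2) / T) (by positivity)
    (((eventually_ge_atTop 0).mono fun L hL => hg L hL).frequently)
  refine ⟨hfree, fun δ hδ hδ1 => ?_⟩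
  have hτ1 : 1 / (8 * T) ≤ 1 := by
    rw [div_le_one (by positivity)]
    linarith
  have h1 := tonelli_exp (gu_meas (1 / (8 * T))) (A := (1152 * C + 2) / T) (by positivity) hδ hδ1
    (fun u hu => gu_zero hτ1 hu) hg
  rw [← D2_gu] at h1
  have h2 := (D2_lower (Zs_free hfree) hδ hδ1 (by linarith : 1 ≤ T)).trans h1
  have h3 : Sm δ T = ENNReal.ofReal (256 * T ^ 2) * (ENNReal.ofReal (1 / (256 * T ^ 2)) * Sm δ T) := by
    rw [← mul_assoc, ← ENNReal.ofReal_mul (by positivity)]
    have : 256 * T ^ 2 * (1 / (256 * T ^ 2)) = 1 := by field_simp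
    rw [this, ENNReal.ofReal_one, one_mul]
  rw [h3]
  refine (mul_le_mul' le_rfl h2).trans ?_
  rw [← ENNReal.ofReal_mul (by positivity)]
  apply ENNReal.ofReal_le_ofReal
  refine le_of_eq ?_
  field_simp
  ring

/-- **The equivalence.** -/
theorem equiv :
    (∃ C : ℝ, ∀ T z : ℝ, 16 ≤ T → 1 ≤ z → ∫ X in (1 : ℝ)..z, JV T X ≤ C * (1 + Real.log z)) ↔
    (∀ s : ℂ, 1 / 2 < s.re → riemannZeta s ≠ 0) ∧
      ∃ C : ℝ, ∀ T δ : ℝ, 1 ≤ T → 0 < δ → δ ≤ 1 → mom2 δ T ≤ C * T / δ := by
  have hpi := Real.pi_pos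
  constructor
  · rintro ⟨C, hC⟩
    have hC' : ∀ T z : ℝ, 16 ≤ T → 1 ≤ z → ∫ X in (1 : ℝ)..z, JV T X ≤ |C| * (1 + Real.log z) := by
      intro T z hT hz
      refine (hC T z hT hz).trans ?_
      have := Real.log_nonneg hz
      exact mul_le_mul_of_nonneg_right (le_abs_self C) (by linarith)
    obtain ⟨hfree, _⟩ := moment_of_mean le_rfl (abs_nonneg C) (fun z hz => hC' 16 z le_rfl hz)
    have hZ := Zs_free hfree
    refine ⟨hfree, 2 * Real.pi * (16 * (5120 * (1152 * |C| + 2))), fun T δ hT hδ hδ1 => ?_⟩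
    have hT0 : 0 < T := by linarith
    set T' : ℝ := max T 16 with hT'
    have hT'16 : 16 ≤ T' := le_max_right _ _
    obtain ⟨_, hm⟩ := moment_of_mean hT'16 (abs_nonneg C) (fun z hz => hC' T' z hT'16 hz)
    have h1 : Sm δ T ≤ Sm δ T' := by
      unfold Sm
      exact lintegral_mono_set fun ξ hξ => show |2 * Real.pi * ξ| ≤ T' from le_trans hξ (le_max_left T 16)
    have h2 := mom2_eq hZ hδ hT0.le
    have h3 : ENNReal.ofReal (mom2 δ T) ≤ ENNReal.ofReal (2 * Real.pi *
        (5120 * (1152 * |C| + 2) * T' / δ)) := by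
      rw [h2, ENNReal.ofReal_mul (by positivity : (0:ℝ) ≤ 2 * Real.pi)]
      exact mul_le_mul' le_rfl (h1.trans (hm δ hδ hδ1))
    have hT'le : T' ≤ 16 * T := max_le (by linarith) (by linarith)
    have h4 : mom2 δ T ≤ 2 * Real.pi * (5120 * (1152 * |C| + 2) * T' / δ) := by
      have h0 : 0 ≤ 2 * Real.pi * (5120 * (1152 * |C| + 2) * T' / δ) := by
        have : 0 < T' := by linarith
        positivity
      rwa [ENNReal.ofReal_le_ofReal_iff h0] at h3
    refine h4.trans ?_
    rw [← mul_div_assoc]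
    apply div_le_div_of_nonneg_right _ hδ.le
    calc 2 * Real.pi * (5120 * (1152 * |C| + 2) * T')
        ≤ 2 * Real.pi * (5120 * (1152 * |C| + 2) * (16 * T)) := by gcongr
      _ = _ := by ring
  · rintro ⟨hfree, C, hC⟩
    have hZ := Zs_free hfree
    refine ⟨377487360 * (9375 * |C|) * Real.exp 4, fun T z hT hz => ?_⟩
    have hlog := Real.log_nonneg hz
    set δ : ℝ := 1 / (1 + Real.log z) with hδd
    have hδ : 0 < δ := by positivity
    have hδ1 : δ ≤ 1 := by
      rw [hδd, div_le_one (by linarith)]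
      linarith
    have hS : ∀ R : ℝ, 1 ≤ R → Sm δ R ≤ ENNReal.ofReal (|C| / δ * R) := by
      intro R hR
      have h1 := mom2_eq hZ hδ (by linarith : 0 ≤ R)
      have h2 : ENNReal.ofReal (mom2 δ R) ≤ ENNReal.ofReal (|C| / δ * R) := by
        apply ENNReal.ofReal_le_ofReal
        refine (hC R δ hR hδ hδ1).trans ?_
        rw [div_mul_eq_mul_div]
        apply div_le_div_of_nonneg_right _ hδ.le
        have := le_abs_self C
        nlinarith
      calc Sm δ R = 1 * Sm δ R := (one_mul _).symm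
        _ ≤ ENNReal.ofReal (2 * Real.pi) * Sm δ R := by
            refine mul_le_mul' ?_ le_rfl
            rw [ENNReal.one_le_ofReal]
            linarith [Real.pi_gt_three]
        _ = ENNReal.ofReal (mom2 δ R) := h1.symm
        _ ≤ _ := h2
    have hK : ∀ τ : ℝ, 0 < τ → τ ≤ 1 → D2 τ δ ≤ ENNReal.ofReal (9375 * (|C| / δ) * τ) :=
      fun τ hτ hτ1 => D2_upper hZ hδ hδ1 hτ hτ1 (by positivity) hS
    have h1 := mean_le hT hz hδ (K := 9375 * (|C| / δ)) (by positivity) hK
    refine h1.trans ?_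
    have h2 : (3 * z) ^ (2 * δ) ≤ Real.exp 4 := by
      rw [Real.rpow_def_of_pos (by positivity), Real.log_mul (by norm_num) (by linarith)]
      apply Real.exp_le_exp.2
      have h3 : Real.log 3 ≤ 2 := by
        have := Real.log_le_sub_one_of_pos (by norm_num : (0 : ℝ) < 3)
        linarith
      have h4 : δ * (1 + Real.log z) = 1 := by
        rw [hδd]
        field_simp
      nlinarith
    have h5 : 1 / δ = 1 + Real.log z := by
      rw [hδd]
      simp
    calc 377487360 * (9375 * (|C| / δ)) * (3 * z) ^ (2 * δ)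
        ≤ 377487360 * (9375 * (|C| / δ)) * Real.exp 4 := by gcongr
      _ = 377487360 * (9375 * |C|) * Real.exp 4 * (1 / δ) := by ring
      _ = _ := by rw [h5]

end

end Pool.Agent.J6H10.GC
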