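import Pool.Agent.J6H10.GC.B4

/-! # The uniform bound implies the bound for the means -/

set_option autoImplicit false

open MeasureTheory Filter Topology Set
open Pool.Agent.H295R2 hiding VV
open Pool.Agent.H448R2.GC (VV)
open Pool.Agent.K1H70.GC (JV QQ QM)

namespace Pool.Agent.J6H10.GC

noncomputable section

lemma lint_inv {a b : ℝ} (ha : 0 < a) (hab : a ≤ b) :
    ∫⁻ H in Ioc a b, ENNReal.ofReal (1 / H) = ENNReal.ofReal (Real.log (b / a)) := by
  have hb : 0 < b := ha.trans_le hab
  have hi : IntegrableOn (fun H : ℝ => 1 / H) (Ioc a b) := by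
    rw [← intervalIntegrable_iff_integrableOn_Ioc_of_le hab]
    exact intervalIntegral.intervalIntegrable_one_div (fun x hx => by
      rw [uIcc_of_le hab] at hx
      exact (ha.trans_le hx.1).ne') continuousOn_id
  rw [← ofReal_integral_eq_lintegral_ofReal hi]
  · rw [← intervalIntegral.integral_of_le hab, integral_one_div_of_pos ha hb]
  · filter_upwards [ae_restrict_mem measurableSet_Ioc] with H hH
    have : 0 < H := ha.trans hH.1
    simp only [Pi.zero_apply]
    positivity

theorem mean_of_uniform {T z C : ℝ} (hT : 16 ≤ T) (hz : 1 ≤ z) (hC : 0 ≤ C)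
    (h : ∀ X H : ℝ, 1 ≤ X → X / (16 * T) ≤ H → H ≤ 4 * X / T → VV X H ≤ C * H) :
    ∫ X in (1 : ℝ)..z, JV T X ≤ C * Real.log 64 * Real.log z := by
  have hT0 : 0 < T := by linarith
  have h1 := Pool.Agent.K1H70.GC.QV_real (T := T) hT0 one_pos hz
  have h2 : QQ (fun X H => ENNReal.ofReal (VV X H / (H ^ 2 * X))) T 16 4 1 z ≤
      ENNReal.ofReal (C * Real.log 64 * Real.log z) := by
    unfold Pool.Agent.K1H70.GC.QQ
    calc ∫⁻ X in Ioc 1 z, ∫⁻ H in Ioc (X / (16 * T)) (4 * X / T),
          ENNReal.ofReal (VV X H / (H ^ 2 * X))
        ≤ ∫⁻ X in Ioc 1 z, ENNReal.ofReal (C * Real.log 64) * ENNReal.ofReal (1 / X) := by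
          refine setLIntegral_mono' measurableSet_Ioc fun X hX => ?_
          have hX0 : 0 < X := by linarith [hX.1]
          have hab : X / (16 * T) ≤ 4 * X / T := by
            rw [div_le_div_iff₀ (by positivity) hT0]
            nlinarith [mul_pos hX0 hT0]
          calc ∫⁻ H in Ioc (X / (16 * T)) (4 * X / T), ENNReal.ofReal (VV X H / (H ^ 2 * X))
              ≤ ∫⁻ H in Ioc (X / (16 * T)) (4 * X / T),
                ENNReal.ofReal (C / X) * ENNReal.ofReal (1 / H) := by
                refine setLIntegral_mono' measurableSet_Ioc fun H hH => ?_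
                have hH0 : 0 < H := lt_trans (by positivity) hH.1
                rw [← ENNReal.ofReal_mul (by positivity)]
                apply ENNReal.ofReal_le_ofReal
                have h3 := h X H hX.1.le hH.1.le hH.2
                rw [div_mul_div_comm, mul_one, div_le_div_iff₀ (by positivity) (by positivity)]
                calc VV X H * (X * H) ≤ C * H * (X * H) := by gcongr
                  _ = C * (H ^ 2 * X) := by ring
            _ = ENNReal.ofReal (C / X) * ENNReal.ofReal (Real.log 64) := by
                rw [lintegral_const_mul' _ _ ENNReal.ofReal_ne_top, lint_inv (by positivity) hab]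
                congr 3
                field_simp
                norm_num
            _ = ENNReal.ofReal (C * Real.log 64) * ENNReal.ofReal (1 / X) := by
                have := Real.log_nonneg (by norm_num : (1 : ℝ) ≤ 64)
                rw [← ENNReal.ofReal_mul (by positivity), ← ENNReal.ofReal_mul (by positivity)]
                congr 1
                ring
      _ = ENNReal.ofReal (C * Real.log 64 * Real.log z) := by
          have := Real.log_nonneg (by norm_num : (1 : ℝ) ≤ 64)
          rw [lintegral_const_mul' _ _ ENNReal.ofReal_ne_top, lint_inv one_pos hz, div_one,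
            ← ENNReal.ofReal_mul (by positivity)]
  rw [h1] at h2
  have h3 : 0 ≤ C * Real.log 64 * Real.log z := by
    have := Real.log_nonneg (by norm_num : (1 : ℝ) ≤ 64)
    have := Real.log_nonneg hz
    positivity
  rwa [ENNReal.ofReal_le_ofReal_iff h3] at h2

end

end Pool.Agent.J6H10.GC
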