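import Pool.Agent.J6H10.GC.B5

/-! # Bessel's inequality for the differences of `M` and the zeros of `ζ` -/

set_option autoImplicit false

open MeasureTheory Filter Topology Set
open Pool.Agent.H295R2 hiding VV
open Pool.Agent.H448R2.GC (VV)
open Pool.Agent.K1H70.GC (JV QQ QM)

namespace Pool.Agent.J6H10.GC

noncomputable section

/-- the mean square of `M` up to `L + τ` from the mean square of its differences up to `L` -/
lemma JJ_le' {τ L I : ℝ} (hτ : 0 < τ) (hI : 0 ≤ I)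
    (h : ∫⁻ u in Iic L, gu τ u ≤ ENNReal.ofReal I) :
    JJ (L + τ) ≤ 1 / (Real.exp (τ / 2) - 1) ^ 2 * I := by
  set q : ℝ := Real.exp (τ / 2) with hq
  have hq1 : 1 < q := Real.one_lt_exp_iff.2 (by positivity)
  have hq0 : 0 < q := by linarith
  set P : ℝ → ENNReal := fun u => ENNReal.ofReal (‖kM u‖ ^ 2 * Real.exp (-u)) with hP
  have hPm : Measurable P := by
    rw [hP]
    refine Measurable.ennreal_ofReal ?_
    exact (kM_meas.norm.pow_const 2).mul (by fun_prop)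
  have hPJ : ∀ L : ℝ, ∫⁻ u in Iic L, P u = ENNReal.ofReal (JJ L) := by
    intro L
    have e1 : ∫⁻ u in Iic L, P u = ∫⁻ u in Ioc 0 L, P u := by
      rw [← lintegral_indicator measurableSet_Iic, ← lintegral_indicator measurableSet_Ioc]
      refine lintegral_congr_ae ?_
      have h0 : ({0}ᶜ : Set ℝ) ∈ ae (volume : Measure ℝ) := by
        rw [mem_ae_iff, compl_compl]; simp
      filter_upwards [h0] with u hu
      have hu0 : u ≠ 0 := by simpa using hu
      rcases lt_or_gt_of_ne hu0 with h1 | h1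
      · rw [indicator_of_notMem (show u ∉ Ioc 0 L from fun hc => by linarith [hc.1])]
        have : P u = 0 := by
          rw [hP]
          simp only
          rw [kM_zero h1]
          simp
        by_cases h2 : u ∈ Iic L
        · rw [indicator_of_mem h2, this]
        · rw [indicator_of_notMem h2]
      · by_cases h2 : u ≤ L
        · rw [indicator_of_mem (show u ∈ Iic L from h2), indicator_of_mem (show u ∈ Ioc 0 L from ⟨h1, h2⟩)]
        · rw [indicator_of_notMem (show u ∉ Iic L from h2),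
            indicator_of_notMem (show u ∉ Ioc 0 L from fun hc => h2 hc.2)]
    rw [e1]
    unfold JJ
    rw [ofReal_integral_eq_lintegral_ofReal (JJ_integrable L) (Eventually.of_forall fun s => by positivity)]
    refine lintegral_congr fun s => ?_
    rw [hP]
    simp only
    unfold kM
    rw [Complex.norm_real, Real.norm_eq_abs, sq_abs]
  have hq2 : 0 < q - 1 := by linarith
  have key : ∫⁻ u in Iic (L + τ), P u ≤ ENNReal.ofReal (1 / q) * (∫⁻ u in Iic (L + τ), P u) +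
      ENNReal.ofReal (1 / (q * (q - 1))) * ∫⁻ u in Iic L, gu τ u := by
    have e1 : ∫⁻ u in Iic (L + τ), P u = ∫⁻ u in Iic L, P (u + τ) := by
      rw [← lintegral_indicator measurableSet_Iic, ← lintegral_indicator measurableSet_Iic,
        ← lintegral_add_right_eq_self (fun u => (Iic (L + τ)).indicator P u) τ]
      refine lintegral_congr fun u => ?_
      by_cases h1 : u ≤ L
      · rw [indicator_of_mem (show u ∈ Iic L from h1),
          indicator_of_mem (show u + τ ∈ Iic (L + τ) from by rw [mem_Iic]; linarith)]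
      · rw [indicator_of_notMem (show u ∉ Iic L from h1),
          indicator_of_notMem (show u + τ ∉ Iic (L + τ) from fun hc => h1 (by rw [mem_Iic] at hc; linarith))]
    have e2 : ∀ u, P (u + τ) ≤ ENNReal.ofReal (1 / q) * P u +
        ENNReal.ofReal (1 / (q * (q - 1))) * gu τ u := by
      intro u
      rw [hP]
      simp only
      unfold gu
      rw [← ENNReal.ofReal_mul (by positivity), ← ENNReal.ofReal_mul (by positivity),
        ← ENNReal.ofReal_add (by positivity) (by positivity)]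
      apply ENNReal.ofReal_le_ofReal
      have e3 : Real.exp (-(u + τ)) = Real.exp (-u) * (1 / q ^ 2) := by
        rw [hq, ← Real.exp_nat_mul, one_div, ← Real.exp_neg, ← Real.exp_add]
        congr 1
        push_cast
        ring
      rw [e3]
      set a := ‖kM u‖ with ha
      set b := ‖kM (u + τ) - kM u‖ with hb
      have h1 : ‖kM (u + τ)‖ ≤ a + b := by
        have := norm_add_le (kM u) (kM (u + τ) - kM u)
        rwa [add_sub_cancel] at this
      have h2 : ‖kM (u + τ)‖ ^ 2 ≤ (a + b) ^ 2 := pow_le_pow_left₀ (norm_nonneg _) h1 2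
      have h3 : (a + b) ^ 2 ≤ q * a ^ 2 + q / (q - 1) * b ^ 2 := by
        have h4 : 0 ≤ ((q - 1) * a - b) ^ 2 / (q - 1) := by positivity
        have h5 : ((q - 1) * a - b) ^ 2 / (q - 1) = q * a ^ 2 + q / (q - 1) * b ^ 2 - (a + b) ^ 2 := by
          field_simp
          ring
        linarith
      calc ‖kM (u + τ)‖ ^ 2 * (Real.exp (-u) * (1 / q ^ 2))
          ≤ (q * a ^ 2 + q / (q - 1) * b ^ 2) * (Real.exp (-u) * (1 / q ^ 2)) := by
            gcongr
            exact h2.trans h3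
        _ = 1 / q * (a ^ 2 * Real.exp (-u)) + 1 / (q * (q - 1)) * (b ^ 2 * Real.exp (-u)) := by
            field_simp
    calc ∫⁻ u in Iic (L + τ), P u = ∫⁻ u in Iic L, P (u + τ) := e1
      _ ≤ ∫⁻ u in Iic L, (ENNReal.ofReal (1 / q) * P u +
          ENNReal.ofReal (1 / (q * (q - 1))) * gu τ u) := lintegral_mono fun u => e2 u
      _ = ENNReal.ofReal (1 / q) * (∫⁻ u in Iic L, P u) +
          ENNReal.ofReal (1 / (q * (q - 1))) * ∫⁻ u in Iic L, gu τ u := by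
          rw [lintegral_add_left (hPm.const_mul _), lintegral_const_mul _ hPm,
            lintegral_const_mul _ (gu_meas τ)]
      _ ≤ _ := by
          refine add_le_add (mul_le_mul' le_rfl ?_) le_rfl
          exact lintegral_mono_set (Iic_subset_Iic.2 (by linarith))
  rw [hPJ] at key
  have hJ0 := JJ_nonneg (L + τ)
  have key2 : ENNReal.ofReal (JJ (L + τ)) ≤
      ENNReal.ofReal (1 / q * JJ (L + τ) + 1 / (q * (q - 1)) * I) := by
    rw [ENNReal.ofReal_add (by positivity) (by positivity), ENNReal.ofReal_mul (by positivity),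
      ENNReal.ofReal_mul (by positivity)]
    exact key.trans (add_le_add le_rfl (mul_le_mul' le_rfl h))
  have key3 : JJ (L + τ) ≤ 1 / q * JJ (L + τ) + 1 / (q * (q - 1)) * I := by
    rwa [ENNReal.ofReal_le_ofReal_iff (by positivity)] at key2
  have key4 : JJ (L + τ) * (q - 1) ≤ 1 / (q - 1) * I := by
    have h1 : JJ (L + τ) * q ≤ (1 / q * JJ (L + τ) + 1 / (q * (q - 1)) * I) * q :=
      mul_le_mul_of_nonneg_right key3 hq0.le
    have h2 : (1 / q * JJ (L + τ) + 1 / (q * (q - 1)) * I) * q = JJ (L + τ) + 1 / (q - 1) * I := by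
      field_simp
    linarith
  have h3 : 1 / (q - 1) ^ 2 * I = 1 / (q - 1) * I / (q - 1) := by
    field_simp
  rw [h3, le_div_iff₀ hq2]
  exact key4

/-- the differences, normalised -/
def d0 (τ s : ℝ) : ℂ := (kM (s + τ) - kM s) * Complex.exp (-(s / 2))

/-- the differences times `e^{-ρs}` -/
def df (τ : ℝ) (ρ : ℂ) (s : ℝ) : ℂ := (kM (s + τ) - kM s) * Complex.exp (-(ρ * s))

/-- their mean square -/
def DL (τ L : ℝ) : ℝ := ∫ s in Ioc 0 L, ‖kM (s + τ) - kM s‖ ^ 2 * Real.exp (-s)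

/-- their Fourier coefficients -/
def QP (τ : ℝ) (ρ : ℂ) (L : ℝ) : ℂ := ∫ s in Ioc 0 L, df τ ρ s

lemma dk_meas (τ : ℝ) : Measurable (fun s : ℝ => kM (s + τ) - kM s) :=
  (kM_meas.comp (measurable_id.add_const τ)).sub kM_meas

lemma dk_bound {τ s L : ℝ} (hτ : 0 ≤ τ) (hs : s ≤ L) : ‖kM (s + τ) - kM s‖ ≤ 2 * Real.exp (L + τ) := by
  have h1 := kM_nice1.bound (s + τ)
  have h2 := kM_nice1.bound s
  rw [one_mul, one_mul] at h1 h2
  refine (norm_sub_le _ _).trans ?_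
  have h3 : Real.exp (s + τ) ≤ Real.exp (L + τ) := Real.exp_le_exp.2 (by linarith)
  have h4 : Real.exp s ≤ Real.exp (L + τ) := Real.exp_le_exp.2 (by linarith)
  linarith

lemma DL_integrable {τ : ℝ} (hτ : 0 ≤ τ) (L : ℝ) :
    IntegrableOn (fun s : ℝ => ‖kM (s + τ) - kM s‖ ^ 2 * Real.exp (-s)) (Ioc 0 L) := by
  have hm : Measurable (fun s : ℝ => ‖kM (s + τ) - kM s‖ ^ 2 * Real.exp (-s)) :=
    ((dk_meas τ).norm.pow_const 2).mul (by fun_prop)
  refine integrableOn_of_le hm (B := (2 * Real.exp (L + τ)) ^ 2) fun s hs => ?_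
  rw [abs_of_nonneg (by positivity)]
  have h1 := pow_le_pow_left₀ (norm_nonneg _) (dk_bound hτ hs.2) 2
  have h2 : Real.exp (-s) ≤ 1 := Real.exp_le_one_iff.2 (by linarith [hs.1])
  calc ‖kM (s + τ) - kM s‖ ^ 2 * Real.exp (-s) ≤ (2 * Real.exp (L + τ)) ^ 2 * 1 := by gcongr
    _ = _ := mul_one _

lemma df_iOn {τ : ℝ} (hτ : 0 ≤ τ) {ρ : ℂ} (h0 : 0 ≤ ρ.re) (L : ℝ) : IntegrableOn (df τ ρ) (Ioc 0 L) := by
  refine Integrable.mono' (g := fun _ => 2 * Real.exp (L + τ)) (integrableOn_const (by simp)) ?_ ?_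
  · refine (Measurable.mul (dk_meas τ) ?_).aestronglyMeasurable
    exact Continuous.measurable (by fun_prop)
  · refine (ae_restrict_mem measurableSet_Ioc).mono fun s hs => ?_
    unfold df
    rw [norm_mul, norm_exp_neg_mul]
    have h2 : Real.exp (-(ρ.re * s)) ≤ 1 := Real.exp_le_one_iff.2 (by nlinarith [hs.1])
    calc ‖kM (s + τ) - kM s‖ * Real.exp (-(ρ.re * s)) ≤ 2 * Real.exp (L + τ) * 1 := by
          have := dk_bound hτ hs.2
          gcongr
      _ = _ := mul_one _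

lemma d0_mul {τ : ℝ} {ρ : ℂ} (h : ρ.re = 1 / 2) (s : ℝ) : d0 τ s * (starRingEnd ℂ) (ee ρ s) = df τ ρ s := by
  unfold d0 ee df
  rw [← Complex.exp_conj]
  have h1 : (starRingEnd ℂ) ((ρ - 1 / 2) * s) = -((ρ - 1 / 2) * s) := by
    rw [map_mul, Complex.conj_ofReal, ← neg_mul]
    congr 1
    apply Complex.ext
    · simp [h]
    · simp
  rw [h1, mul_assoc, ← Complex.exp_add]
  congr 2; ring

lemma bessel_raw_d {τ : ℝ} (hτ : 0 ≤ τ) (Z : Finset ℂ) (hZ : ∀ ρ ∈ Z, ρ.re = 1 / 2) (w : ℂ → ℂ) (L : ℝ) :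
    0 ≤ DL τ L - 2 * (∑ ρ ∈ Z, (starRingEnd ℂ) (w ρ) * QP τ ρ L).re +
      (∑ ρ ∈ Z, ∑ ρ' ∈ Z, w ρ * (starRingEnd ℂ) (w ρ') * GR (ρ - ρ') L).re := by
  set S : ℝ → ℂ := fun s => ∑ ρ ∈ Z, w ρ * ee ρ s with hS
  have hpt : ∀ s, Complex.normSq (d0 τ s - S s) = ‖kM (s + τ) - kM s‖ ^ 2 * Real.exp (-s) -
      2 * (∑ ρ ∈ Z, (starRingEnd ℂ) (w ρ) * df τ ρ s).re +
      (∑ ρ ∈ Z, ∑ ρ' ∈ Z, w ρ * (starRingEnd ℂ) (w ρ') * Complex.exp ((ρ - ρ') * s)).re := by
    intro s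
    rw [Complex.normSq_sub]
    have e1 : Complex.normSq (d0 τ s) = ‖kM (s + τ) - kM s‖ ^ 2 * Real.exp (-s) := by
      unfold d0
      rw [Complex.normSq_eq_norm_sq, norm_mul, Complex.norm_exp, mul_pow]
      have : (-((s : ℂ) / 2)).re = -(s / 2) := by simp
      rw [this, ← Real.exp_nat_mul]
      congr 2
      push_cast
      ring
    have e2 : (d0 τ s * (starRingEnd ℂ) (S s)) = ∑ ρ ∈ Z, (starRingEnd ℂ) (w ρ) * df τ ρ s := by
      rw [hS]
      simp only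
      rw [map_sum, Finset.mul_sum]
      refine Finset.sum_congr rfl fun ρ hρ => ?_
      rw [map_mul, ← d0_mul (hZ ρ hρ) s]; ring
    have e3 : Complex.normSq (S s) =
        (∑ ρ ∈ Z, ∑ ρ' ∈ Z, w ρ * (starRingEnd ℂ) (w ρ') * Complex.exp ((ρ - ρ') * s)).re := by
      have h1 : ((Complex.normSq (S s) : ℝ) : ℂ) = ∑ ρ ∈ Z, ∑ ρ' ∈ Z, w ρ * (starRingEnd ℂ) (w ρ') * Complex.exp ((ρ - ρ') * s) := by
        rw [Complex.normSq_eq_conj_mul_self, mul_comm, hS]
        simp only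
        rw [map_sum, Finset.sum_mul_sum]
        refine Finset.sum_congr rfl fun ρ _ => Finset.sum_congr rfl fun ρ' hρ' => ?_
        rw [map_mul, ← ee_mul (ρ := ρ) (hZ ρ' hρ') s]; ring
      rw [← h1, Complex.ofReal_re]
    rw [e1, e2, e3]; ring
  have h0 : 0 ≤ ∫ s in Ioc 0 L, Complex.normSq (d0 τ s - S s) := integral_nonneg fun s => Complex.normSq_nonneg _
  have i1 : IntegrableOn (fun s => ∑ ρ ∈ Z, (starRingEnd ℂ) (w ρ) * df τ ρ s) (Ioc 0 L) :=
    integrable_finsetSum _ fun ρ hρ => (df_iOn hτ (by rw [hZ ρ hρ]; norm_num) L).const_mul _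
  have i2 : IntegrableOn (fun s : ℝ => ∑ ρ ∈ Z, ∑ ρ' ∈ Z, w ρ * (starRingEnd ℂ) (w ρ') * Complex.exp ((ρ - ρ') * s)) (Ioc 0 L) :=
    cont_iOn (by fun_prop) L
  have i3 := i1.re
  have i4 := i2.re
  simp only [hpt] at h0
  have i5 : IntegrableOn (fun s => 2 * (∑ ρ ∈ Z, (starRingEnd ℂ) (w ρ) * df τ ρ s).re) (Ioc 0 L) := i3.const_mul 2
  have i6 : IntegrableOn (fun s => ‖kM (s + τ) - kM s‖ ^ 2 * Real.exp (-s) -
      2 * (∑ ρ ∈ Z, (starRingEnd ℂ) (w ρ) * df τ ρ s).re) (Ioc 0 L) :=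
    (DL_integrable hτ L).sub i5
  have i7 : IntegrableOn (fun s : ℝ => (∑ ρ ∈ Z, ∑ ρ' ∈ Z, w ρ * (starRingEnd ℂ) (w ρ') * Complex.exp ((ρ - ρ') * s)).re) (Ioc 0 L) := i4
  have e4 := integral_add i6 i7
  have e5 := integral_sub (DL_integrable hτ L) i5
  rw [e4, e5, integral_const_mul] at h0
  have e6 : ∫ s in Ioc 0 L, (∑ ρ ∈ Z, (starRingEnd ℂ) (w ρ) * df τ ρ s).re = (∑ ρ ∈ Z, (starRingEnd ℂ) (w ρ) * QP τ ρ L).re := by
    have := integral_re i1
    simp only [RCLike.re_eq_complex_re] at this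
    rw [this, integral_finsetSum]
    · congr 1
      refine Finset.sum_congr rfl fun ρ _ => ?_
      rw [integral_const_mul]; rfl
    · exact fun ρ hρ => (df_iOn hτ (by rw [hZ ρ hρ]; norm_num) L).const_mul _
  have e7 : ∫ s in Ioc 0 L, (∑ ρ ∈ Z, ∑ ρ' ∈ Z, w ρ * (starRingEnd ℂ) (w ρ') * Complex.exp ((ρ - ρ') * s)).re =
      (∑ ρ ∈ Z, ∑ ρ' ∈ Z, w ρ * (starRingEnd ℂ) (w ρ') * GR (ρ - ρ') L).re := by
    have := integral_re i2
    simp only [RCLike.re_eq_complex_re] at this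
    rw [this, integral_finsetSum]
    · congr 1
      refine Finset.sum_congr rfl fun ρ _ => ?_
      rw [integral_finsetSum]
      · refine Finset.sum_congr rfl fun ρ' _ => ?_
        rw [integral_const_mul]; rfl
      · exact fun ρ' _ => cont_iOn (by fun_prop) L
    · exact fun ρ _ => cont_iOn (by fun_prop) L
  rw [e6, e7] at h0
  exact h0

/-- the coefficient of the differences at a zero -/
def wd (τ : ℝ) (ρ : ℂ) : ℂ := (Complex.exp (ρ * τ) - 1) * ww ρ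

lemma QP_eq {τ L : ℝ} (hτ : 0 ≤ τ) (hL : 0 ≤ L) {ρ : ℂ} (h0 : 0 ≤ ρ.re) :
    QP τ ρ L = Complex.exp (ρ * τ) * (PP ρ (L + τ) - PP ρ τ) - PP ρ L := by
  have hm : ∀ s, kM s * Complex.exp (-(ρ * s)) = mf ρ s := fun s => rfl
  have e1 : ∀ s : ℝ, df τ ρ s = Complex.exp (ρ * τ) * mf ρ (s + τ) - mf ρ s := by
    intro s
    unfold df
    rw [sub_mul, hm s, ← hm (s + τ)]
    congr 1
    have : Complex.exp (ρ * τ) * (kM (s + τ) * Complex.exp (-(ρ * ((s + τ : ℝ) : ℂ)))) =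
        kM (s + τ) * (Complex.exp (ρ * τ) * Complex.exp (-(ρ * ((s + τ : ℝ) : ℂ)))) := by ring
    rw [this, ← Complex.exp_add]
    congr 2
    push_cast
    ring
  have hi1 : IntervalIntegrable (mf ρ) volume 0 L := by
    rw [intervalIntegrable_iff_integrableOn_Ioc_of_le hL]
    exact mf_iOn h0 L
  have hi2 : ∀ a b : ℝ, 0 ≤ a → 0 ≤ b → IntervalIntegrable (mf ρ) volume a b := by
    intro a b ha hb
    have h1 : IntervalIntegrable (mf ρ) volume 0 a := by
      rw [intervalIntegrable_iff_integrableOn_Ioc_of_le ha]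
      exact mf_iOn h0 a
    have h2 : IntervalIntegrable (mf ρ) volume 0 b := by
      rw [intervalIntegrable_iff_integrableOn_Ioc_of_le hb]
      exact mf_iOn h0 b
    exact h1.symm.trans h2
  have hi3 : IntervalIntegrable (fun s => mf ρ (s + τ)) volume 0 L := by
    have h1 := (hi2 (0 + τ) (L + τ) (by linarith) (by linarith)).comp_add_right τ
    rwa [add_sub_cancel_right, add_sub_cancel_right] at h1
  unfold QP PP
  rw [← intervalIntegral.integral_of_le hL, ← intervalIntegral.integral_of_le (by linarith),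
    ← intervalIntegral.integral_of_le hτ, ← intervalIntegral.integral_of_le hL]
  simp_rw [e1]
  rw [intervalIntegral.integral_sub (hi3.const_mul _) hi1, intervalIntegral.integral_const_mul,
    intervalIntegral.integral_comp_add_right (mf ρ), zero_add]
  congr 2
  rw [eq_sub_iff_add_eq, add_comm]
  exact intervalIntegral.integral_add_adjacent_intervals (hi2 0 τ le_rfl hτ) (hi2 τ (L + τ) hτ (by linarith))

lemma QP_bound {τ : ℝ} (hτ : 0 ≤ τ) {ρ : ℂ} (h : ρ.re = 1 / 2) (hz : riemannZeta ρ = 0)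
    (hd : deriv riemannZeta ρ ≠ 0) :
    ∃ C : ℝ, 0 < C ∧ ∀ L : ℝ, 0 ≤ L → ‖QP τ ρ L - wd τ ρ * L‖ ≤ C * (1 + Real.sqrt (JJ (L + τ))) := by
  obtain ⟨C, hC, hb⟩ := PP_bound' h hz hd
  set E : ℝ := ‖Complex.exp (ρ * τ)‖ with hE
  set K : ℝ := E * (‖ww ρ‖ * τ + ‖PP ρ τ‖) with hK
  refine ⟨E * C + C + K, by positivity, fun L hL => ?_⟩
  rw [QP_eq hτ hL (by rw [h]; norm_num)]
  have h1 := hb (L + τ) (by linarith)
  have h2 := hb L hL
  have h3 : Real.sqrt (JJ L) ≤ Real.sqrt (JJ (L + τ)) := Real.sqrt_le_sqrt (JJ_mono (by linarith))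
  have h4 := Real.sqrt_nonneg (JJ (L + τ))
  have e : Complex.exp (ρ * τ) * (PP ρ (L + τ) - PP ρ τ) - PP ρ L - wd τ ρ * L =
      Complex.exp (ρ * τ) * (PP ρ (L + τ) - ww ρ * ((L + τ : ℝ) : ℂ)) - (PP ρ L - ww ρ * L) +
        Complex.exp (ρ * τ) * (ww ρ * τ - PP ρ τ) := by
    unfold wd
    push_cast
    ring
  rw [e]
  refine (norm_add_le _ _).trans ?_
  have a1 : ‖Complex.exp (ρ * τ) * (PP ρ (L + τ) - ww ρ * ((L + τ : ℝ) : ℂ)) - (PP ρ L - ww ρ * L)‖ ≤
      E * (C * (1 + Real.sqrt (JJ (L + τ)))) + C * (1 + Real.sqrt (JJ (L + τ))) := by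
    refine (norm_sub_le _ _).trans (add_le_add ?_ ?_)
    · rw [norm_mul]
      exact mul_le_mul_of_nonneg_left h1 (norm_nonneg _)
    · refine h2.trans ?_
      gcongr
  have a2 : ‖Complex.exp (ρ * τ) * (ww ρ * τ - PP ρ τ)‖ ≤ K := by
    rw [norm_mul, hK]
    refine mul_le_mul_of_nonneg_left ((norm_sub_le _ _).trans ?_) (norm_nonneg _)
    rw [norm_mul, Complex.norm_real, Real.norm_of_nonneg hτ]
  have hK0 : 0 ≤ K := by positivity
  nlinarith

theorem bessel_fin_d {τ : ℝ} (hτ : 0 ≤ τ) (Z : Finset ℂ)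
    (hZ : ∀ ρ ∈ Z, ρ.re = 1 / 2 ∧ riemannZeta ρ = 0 ∧ deriv riemannZeta ρ ≠ 0) :
    ∃ C : ℝ, 0 < C ∧ ∀ L : ℝ, 0 ≤ L →
      (∑ ρ ∈ Z, ‖wd τ ρ‖ ^ 2) * L ≤ DL τ L + C * (1 + Real.sqrt (JJ (L + τ))) := by
  classical
  choose! Cf hCf hCb using fun ρ (h : ρ.re = 1 / 2 ∧ riemannZeta ρ = 0 ∧ deriv riemannZeta ρ ≠ 0) =>
    QP_bound hτ h.1 h.2.1 h.2.2
  set C1 : ℝ := ∑ ρ ∈ Z, ‖wd τ ρ‖ * |Cf ρ| with hC1
  set C2 : ℝ := ∑ ρ ∈ Z, ∑ ρ' ∈ Z, ‖wd τ ρ‖ * ‖wd τ ρ'‖ * (2 / ‖ρ - ρ'‖) with hC2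
  have hC1' : 0 ≤ C1 := Finset.sum_nonneg fun _ _ => by positivity
  have hC2' : 0 ≤ C2 := Finset.sum_nonneg fun _ _ => Finset.sum_nonneg fun _ _ => by positivity
  refine ⟨2 * C1 + C2 + 1, by positivity, fun L hL => ?_⟩
  have h0 := bessel_raw_d hτ Z (fun ρ hρ => (hZ ρ hρ).1) (wd τ) L
  have hsq : ∀ ρ : ℂ, (starRingEnd ℂ) (wd τ ρ) * (wd τ ρ * L) = ((‖wd τ ρ‖ ^ 2 * L : ℝ) : ℂ) := by
    intro ρ
    rw [← mul_assoc, ← Complex.normSq_eq_conj_mul_self, Complex.normSq_eq_norm_sq]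
    push_cast; ring
  have h1 : (∑ ρ ∈ Z, ‖wd τ ρ‖ ^ 2) * L - C1 * (1 + Real.sqrt (JJ (L + τ))) ≤
      (∑ ρ ∈ Z, (starRingEnd ℂ) (wd τ ρ) * QP τ ρ L).re := by
    have e1 : ∑ ρ ∈ Z, (starRingEnd ℂ) (wd τ ρ) * QP τ ρ L =
        (((∑ ρ ∈ Z, ‖wd τ ρ‖ ^ 2) * L : ℝ) : ℂ) + ∑ ρ ∈ Z, (starRingEnd ℂ) (wd τ ρ) * (QP τ ρ L - wd τ ρ * L) := by
      rw [Finset.sum_mul]
      push_cast
      rw [← Finset.sum_add_distrib]
      refine Finset.sum_congr rfl fun ρ _ => ?_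
      have := hsq ρ
      push_cast at this
      rw [← this]; ring
    rw [e1, Complex.add_re, Complex.ofReal_re]
    have h2 : ‖∑ ρ ∈ Z, (starRingEnd ℂ) (wd τ ρ) * (QP τ ρ L - wd τ ρ * L)‖ ≤
        C1 * (1 + Real.sqrt (JJ (L + τ))) := by
      rw [hC1, Finset.sum_mul]
      refine norm_sum_le_of_le _ fun ρ hρ => ?_
      rw [norm_mul, RCLike.norm_conj, mul_assoc]
      refine mul_le_mul_of_nonneg_left ?_ (norm_nonneg _)
      refine (hCb ρ (hZ ρ hρ) L hL).trans ?_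
      gcongr
      exact le_abs_self _
    have h3 := (abs_le.1 ((Complex.abs_re_le_norm _).trans h2)).1
    linarith
  have h2 : (∑ ρ ∈ Z, ∑ ρ' ∈ Z, wd τ ρ * (starRingEnd ℂ) (wd τ ρ') * GR (ρ - ρ') L).re ≤
      (∑ ρ ∈ Z, ‖wd τ ρ‖ ^ 2) * L + C2 := by
    rw [Complex.re_sum, Finset.sum_mul, hC2, ← Finset.sum_add_distrib]
    refine Finset.sum_le_sum fun ρ hρ => ?_
    rw [Complex.re_sum]
    have h3 : ∀ ρ' ∈ Z, (wd τ ρ * (starRingEnd ℂ) (wd τ ρ') * GR (ρ - ρ') L).re ≤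
        (if ρ' = ρ then ‖wd τ ρ‖ ^ 2 * L else 0) + ‖wd τ ρ‖ * ‖wd τ ρ'‖ * (2 / ‖ρ - ρ'‖) := by
      intro ρ' hρ'
      by_cases he : ρ' = ρ
      · subst he
        rw [if_pos rfl, sub_self, GR_zero hL]
        have e2 : wd τ ρ' * (starRingEnd ℂ) (wd τ ρ') * (L : ℂ) = ((‖wd τ ρ'‖ ^ 2 * L : ℝ) : ℂ) := by
          rw [← hsq ρ']; ring
        rw [e2, Complex.ofReal_re]
        have : 0 ≤ ‖wd τ ρ'‖ * ‖wd τ ρ'‖ * (2 / ‖(0:ℂ)‖) := by positivity
        linarith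
      · rw [if_neg he, zero_add]
        refine (Complex.re_le_norm _).trans ?_
        rw [norm_mul, norm_mul, RCLike.norm_conj]
        gcongr
        apply GR_bound (sub_ne_zero.2 (Ne.symm he)) _ hL
        rw [Complex.sub_re, (hZ ρ hρ).1, (hZ ρ' hρ').1, sub_self]
    refine (Finset.sum_le_sum h3).trans ?_
    rw [Finset.sum_add_distrib, Finset.sum_ite_eq' Z ρ, if_pos hρ]
  have h3 := Real.sqrt_nonneg (JJ (L + τ))
  nlinarith

end

end Pool.Agent.J6H10.GC
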