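import Pool.Agent.J6H10.GC.C1

/-! # Sparse scales and the zeros of `ζ` -/

set_option autoImplicit false

open MeasureTheory Filter Topology Set
open Pool.Agent.H295R2 hiding VV
open Pool.Agent.H448R2.GC (VV)
open Pool.Agent.K1H70.GC (JV QQ QM)

namespace Pool.Agent.J6H10.GC

noncomputable section

lemma wd_lower {T : ℝ} (hT : 1 ≤ T) {ρ : ℂ} (h : ρ.re = 1 / 2) (him : |ρ.im| ≤ 5 * T) :
    1 / (256 * T ^ 2) * (1 / ‖deriv riemannZeta ρ‖ ^ 2) ≤ ‖wd (1 / (8 * T)) ρ‖ ^ 2 := by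
  have hT0 : 0 < T := by linarith
  have hτ : 0 < 1 / (8 * T) := by positivity
  have h1 := Pool.Agent.H448R2.GC.PL.KK_lower (1 / (8 * T)) (1 / 2) ρ.im T hT rfl (by norm_num) him
  have hρ0 : ρ ≠ 0 := by
    rintro rfl
    norm_num at h
  have hρ : ((1 / 2 : ℝ) : ℂ) + (ρ.im : ℂ) * Complex.I = ρ := by
    rw [← h]
    exact Complex.re_add_im ρ
  rw [hρ] at h1
  have h2 : Pool.Agent.H448R2.GC.PL.KK (1 / (8 * T)) ρ = (Complex.exp (ρ * (1 / (8 * T) : ℝ)) - 1) / ρ := by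
    unfold Pool.Agent.H448R2.GC.PL.KK
    rw [integral_exp_mul_complex hρ0]
    simp
  have h3 : wd (1 / (8 * T)) ρ = Pool.Agent.H448R2.GC.PL.KK (1 / (8 * T)) ρ * (1 / deriv riemannZeta ρ) := by
    rw [h2]
    unfold wd ww
    rw [one_div, mul_inv, div_eq_mul_inv, one_div]
    ring
  rw [h3, norm_mul, mul_pow, norm_div, norm_one, div_pow, one_pow]
  have h4 := pow_le_pow_left₀ (by positivity) h1 2
  refine mul_le_mul_of_nonneg_right (le_trans (le_of_eq ?_) h4) (by positivity)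
  field_simp
  norm_num

lemma DL_le {τ L I : ℝ} (hτ : 0 ≤ τ) (hI : 0 ≤ I) (h : ∫⁻ u in Iic L, gu τ u ≤ ENNReal.ofReal I) :
    DL τ L ≤ I := by
  have h1 : ENNReal.ofReal (DL τ L) ≤ ENNReal.ofReal I := by
    unfold DL
    rw [ofReal_integral_eq_lintegral_ofReal (DL_integrable hτ L) (Eventually.of_forall fun s => by positivity)]
    refine le_trans ?_ h
    exact lintegral_mono_set Ioc_subset_Iic_self
  rwa [ENNReal.ofReal_le_ofReal_iff hI] at h1

lemma JV_nonneg {T X : ℝ} (hT : 0 < T) (hX : 0 < X) : 0 ≤ JV T X := by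
  rw [Pool.Agent.K1H70.GC.JV_eq hT hX]
  exact ENNReal.toReal_nonneg

lemma C_nonneg {T C : ℝ} (hT : 16 ≤ T)
    (h : ∃ᶠ z : ℝ in atTop, ∫ X in (1 : ℝ)..z, JV T X ≤ C * Real.log z) : 0 ≤ C := by
  obtain ⟨z, h1, h2⟩ := (h.and_eventually (eventually_ge_atTop 2)).exists
  have h3 : 0 ≤ ∫ X in (1 : ℝ)..z, JV T X := by
    refine intervalIntegral.integral_nonneg (by linarith) fun X hX => JV_nonneg (by linarith) (by linarith [hX.1])
  have h4 : 0 < Real.log z := Real.log_pos (by linarith)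
  by_contra hc
  have : C * Real.log z < 0 := mul_neg_of_neg_of_pos (not_le.1 hc) h4
  linarith

/-- the growth of the differences along a sparse set -/
lemma freq_growth {T C : ℝ} (hT : 16 ≤ T)
    (h : ∃ᶠ z : ℝ in atTop, ∫ X in (1 : ℝ)..z, JV T X ≤ C * Real.log z) :
    ∃ᶠ L : ℝ in atTop, ∫⁻ u in Iic L, gu (1 / (8 * T)) u ≤
      ENNReal.ofReal ((288 * (C * (L + Real.log 4)) + 2) / T) := by
  have hC := C_nonneg hT h
  have h1 : ∃ᶠ z : ℝ in atTop, ∫⁻ u in Iic (Real.log (z / 4)), gu (1 / (8 * T)) u ≤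
      ENNReal.ofReal ((288 * (C * (Real.log (z / 4) + Real.log 4)) + 2) / T) := by
    refine (h.and_eventually (eventually_ge_atTop 8)).mono ?_
    rintro z ⟨h2, h3⟩
    have hz : 0 < z / 4 := by linarith
    rw [gu_int, Real.exp_log hz]
    have e1 : Real.log (z / 4) + Real.log 4 = Real.log z := by
      rw [← Real.log_mul hz.ne' (by norm_num)]
      congr 1
      ring
    rw [e1]
    refine growth_y hT (by linarith : 2 ≤ z / 4) (le_trans (le_of_eq ?_) h2) ?_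
    · congr 1
      ring
    · have := Real.log_nonneg (by linarith : (1 : ℝ) ≤ z)
      positivity
  have h2 : Tendsto (fun z : ℝ => Real.log (z / 4)) atTop atTop :=
    Real.tendsto_log_atTop.comp (tendsto_id.atTop_div_const (by norm_num))
  exact h2.frequently h1

/-- **Sparse scales.** -/
theorem sparse_scales {T C : ℝ} (hT : 16 ≤ T)
    (h : ∃ᶠ z : ℝ in atTop, ∫ X in (1 : ℝ)..z, JV T X ≤ C * Real.log z) :
    (∀ ρ : ℂ, riemannZeta ρ = 0 ∧ 0 < ρ.re ∧ ρ.re < 1 → ρ.re = 1 / 2 ∧ deriv riemannZeta ρ ≠ 0) ∧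
    ∀ Z : Finset ℂ, (∀ ρ ∈ Z, (riemannZeta ρ = 0 ∧ 0 < ρ.re ∧ ρ.re < 1) ∧ |ρ.im| ≤ 5 * T) →
      ∑ ρ ∈ Z, 1 / ‖deriv riemannZeta ρ‖ ^ 2 ≤ 73728 * C * T := by
  have hT0 : 0 < T := by linarith
  have hC := C_nonneg hT h
  have hf := freq_growth hT h
  set τ : ℝ := 1 / (8 * T) with hτd
  have hτ : 0 < τ := by positivity
  have hlog4 : Real.log 4 ≤ 2 := by
    have := Real.log_two_lt_d9
    have e : Real.log 4 = 2 * Real.log 2 := by
      rw [show (4 : ℝ) = 2 ^ 2 by norm_num, Real.log_pow]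
      norm_num
    linarith
  have hlog40 : 0 ≤ Real.log 4 := Real.log_nonneg (by norm_num)
  set K : ℝ := 1 / (Real.exp (τ / 2) - 1) ^ 2 with hK
  have hK0 : 0 ≤ K := by positivity
  set B : ℝ := (288 * (C * 3) + 2) / T with hB
  have hB0 : 0 ≤ B := by positivity
  have hIB : ∀ L : ℝ, 1 ≤ L → (288 * (C * (L + Real.log 4)) + 2) / T ≤ B * L := by
    intro L hL
    rw [hB, div_mul_eq_mul_div]
    apply div_le_div_of_nonneg_right _ hT0.le
    have h1 : C * (L + Real.log 4) ≤ C * (3 * L) := by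
      apply mul_le_mul_of_nonneg_left _ hC
      linarith
    nlinarith
  have hJ : ∀ L : ℝ, 1 ≤ L → ∫⁻ u in Iic L, gu τ u ≤
      ENNReal.ofReal ((288 * (C * (L + Real.log 4)) + 2) / T) → JJ (L + τ) ≤ K * B * L := by
    intro L hL h1
    have h2 := JJ_le' hτ (by positivity) h1
    rw [← hK] at h2
    refine h2.trans ?_
    rw [mul_assoc]
    exact mul_le_mul_of_nonneg_left (hIB L hL) hK0
  have hJW : ∃ᶠ L : ℝ in atTop, JW ((1 - 1) * L) L ≤ (K * B) * L := by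
    refine (hf.and_eventually (eventually_ge_atTop 1)).mono ?_
    rintro L ⟨h2, h3⟩
    rw [sub_self, zero_mul]
    have e : JW 0 L = JJ L := rfl
    rw [e]
    exact (JJ_mono (by linarith)).trans (hJ L h3 h2)
  have hRH := window_RH (δ := 1) one_pos le_rfl hJW
  have hline : ∀ ρ : ℂ, riemannZeta ρ = 0 ∧ 0 < ρ.re ∧ ρ.re < 1 → ρ.re = 1 / 2 := by
    have hR : ∀ ρ : ℂ, riemannZeta ρ = 0 ∧ 0 < ρ.re ∧ ρ.re < 1 → ρ.re ≤ 1 / 2 := fun ρ hρ =>
      (le_csSup zset_bdd ⟨ρ, hρ, rfl⟩).trans hRH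
    intro ρ hρ
    refine le_antisymm (hR ρ hρ) ?_
    have h1 : riemannZeta (1 - ρ) = 0 ∧ 0 < (1 - ρ).re ∧ (1 - ρ).re < 1 := by
      refine ⟨?_, by simp; exact hρ.2.2, by simp; exact hρ.2.1⟩
      rw [riemannZeta_one_sub]
      · rw [hρ.1, mul_zero]
      · intro n hn
        have := hρ.2.1
        rw [hn] at this
        simp at this
        linarith [(Nat.cast_nonneg n : (0:ℝ) ≤ n)]
      · rintro rfl
        have := hρ.2.2
        simp at this
    have := hR _ h1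
    simp at this
    linarith
  have hsimple : ∀ ρ : ℂ, riemannZeta ρ = 0 ∧ 0 < ρ.re ∧ ρ.re < 1 → deriv riemannZeta ρ ≠ 0 := fun ρ hρ =>
    window_simple hRH one_pos le_rfl hJW (hline ρ hρ) hρ.1
  refine ⟨fun ρ hρ => ⟨hline ρ hρ, hsimple ρ hρ⟩, fun Z hZ => ?_⟩
  obtain ⟨K1, hK1, hb⟩ := bessel_fin_d hτ.le Z
    (fun ρ hρ => ⟨hline ρ (hZ ρ hρ).1, (hZ ρ hρ).1.1, hsimple ρ (hZ ρ hρ).1⟩)
  set S : ℝ := ∑ ρ ∈ Z, ‖wd τ ρ‖ ^ 2 with hS
  have hSle : S ≤ 288 * C / T := by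
    by_contra hcon
    push Not at hcon
    set c1 : ℝ := (288 * (C * Real.log 4) + 2) / T with hc1
    have hc10 : 0 ≤ c1 := by positivity
    have hlim := sqrt_lim (c1 + K1) (K * B)
    have hev := hlim.eventually (gt_mem_nhds (by linarith : (0:ℝ) < S - 288 * C / T))
    obtain ⟨L, h1, h2, h3⟩ := (hf.and_eventually (hev.and (eventually_ge_atTop 1))).exists
    have hL0 : 0 < L := by linarith
    have h4 := hb L hL0.le
    have h5 := DL_le hτ.le (by positivity) h1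
    have h6 : Real.sqrt (JJ (L + τ)) ≤ Real.sqrt (|K * B| * L) := by
      apply Real.sqrt_le_sqrt
      refine (hJ L h3 h1).trans ?_
      have := le_abs_self (K * B)
      nlinarith
    have h7 := Real.sqrt_nonneg (|K * B| * L)
    rw [div_lt_iff₀ hL0] at h2
    have e1 : (288 * (C * (L + Real.log 4)) + 2) / T = 288 * C / T * L + c1 := by
      rw [hc1]
      field_simp
      ring
    rw [e1] at h5
    have h8 : K1 * (1 + Real.sqrt (JJ (L + τ))) ≤ K1 * (1 + Real.sqrt (|K * B| * L)) := by gcongr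
    nlinarith
  have h9 : ∑ ρ ∈ Z, 1 / ‖deriv riemannZeta ρ‖ ^ 2 ≤ 256 * T ^ 2 * S := by
    rw [hS, Finset.mul_sum]
    refine Finset.sum_le_sum fun ρ hρ => ?_
    have h10 := wd_lower (by linarith : 1 ≤ T) (hline ρ (hZ ρ hρ).1) (hZ ρ hρ).2
    rw [← hτd] at h10
    have h11 := mul_le_mul_of_nonneg_left h10 (by positivity : 0 ≤ 256 * T ^ 2)
    refine le_trans (le_of_eq ?_) h11
    field_simp
  refine h9.trans ?_
  calc 256 * T ^ 2 * S ≤ 256 * T ^ 2 * (288 * C / T) := by gcongr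
    _ = 73728 * C * T := by
        field_simp
        ring

end

end Pool.Agent.J6H10.GC
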