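import Pool.Agent.J6H10.GC.C2

/-! # Bounds for the variance at large scales only -/

set_option autoImplicit false

open MeasureTheory Filter Topology Set
open Pool.Agent.H295R2 hiding VV
open Pool.Agent.H448R2.GC (VV)
open Pool.Agent.K1H70.GC (JV QQ QM)

namespace Pool.Agent.J6H10.GC

noncomputable section

lemma log64_nonneg : 0 ≤ Real.log 64 := Real.log_nonneg (by norm_num)

theorem QQ_of_large {T X₀ z C : ℝ} (hT : 16 ≤ T) (hX₀ : 1 ≤ X₀) (hz : X₀ ≤ z) (hC : 0 ≤ C)
    (h : ∀ X H : ℝ, X₀ ≤ X → X / (16 * T) ≤ H → H ≤ 4 * X / T → VV X H ≤ C * H) :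
    QQ (fun X H => ENNReal.ofReal (VV X H / (H ^ 2 * X))) T 16 4 X₀ z ≤
      ENNReal.ofReal (C * Real.log 64 * Real.log z) := by
  have hT0 : 0 < T := by linarith
  have h64 := log64_nonneg
  unfold Pool.Agent.K1H70.GC.QQ
  calc ∫⁻ X in Ioc X₀ z, ∫⁻ H in Ioc (X / (16 * T)) (4 * X / T),
        ENNReal.ofReal (VV X H / (H ^ 2 * X))
      ≤ ∫⁻ X in Ioc X₀ z, ENNReal.ofReal (C * Real.log 64) * ENNReal.ofReal (1 / X) := by
        refine setLIntegral_mono' measurableSet_Ioc fun X hX => ?_
        have hX0 : 0 < X := by linarith [hX.1]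
        have hab : X / (16 * T) ≤ 4 * X / T := by
          rw [div_le_div_iff₀ (by positivity) hT0]
          nlinarith [mul_pos hX0 hT0]
        calc ∫⁻ H in Ioc (X / (16 * T)) (4 * X / T), ENNReal.ofReal (VV X H / (H ^ 2 * X))
            ≤ ∫⁻ H in Ioc (X / (16 * T)) (4 * X / T),
              ENNReal.ofReal (C / X) * ENNReal.ofReal (1 / H) := by
              refine setLIntegral_mono' measurableSet_Ioc fun H hH => ?_
              have hH0 : 0 < H := lt_trans (by positivity) hH.1
              rw [← ENNReal.ofReal_mul (by positivity)]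
              apply ENNReal.ofReal_le_ofReal
              have h3 := h X H hX.1.le hH.1.le hH.2
              rw [div_mul_div_comm, mul_one, div_le_div_iff₀ (by positivity) (by positivity)]
              calc VV X H * (X * H) ≤ C * H * (X * H) := by gcongr
                _ = C * (H ^ 2 * X) := by ring
          _ = ENNReal.ofReal (C / X) * ENNReal.ofReal (Real.log 64) := by
              rw [lintegral_const_mul' _ _ ENNReal.ofReal_ne_top, lint_inv (by positivity) hab]
              congr 3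
              field_simp
              norm_num
          _ = ENNReal.ofReal (C * Real.log 64) * ENNReal.ofReal (1 / X) := by
              rw [← ENNReal.ofReal_mul (by positivity), ← ENNReal.ofReal_mul (by positivity)]
              congr 1
              ring
    _ ≤ ∫⁻ X in Ioc 1 z, ENNReal.ofReal (C * Real.log 64) * ENNReal.ofReal (1 / X) :=
        lintegral_mono_set (Ioc_subset_Ioc_left hX₀)
    _ = ENNReal.ofReal (C * Real.log 64 * Real.log z) := by
        rw [lintegral_const_mul' _ _ ENNReal.ofReal_ne_top, lint_inv one_pos (hX₀.trans hz), div_one,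
          ← ENNReal.ofReal_mul (by positivity)]

/-- bounds for all large `X` (depending on `T`) -/
theorem freq_of_large {T C : ℝ} (hT : 16 ≤ T) (hC : 0 ≤ C)
    (h : ∀ᶠ X : ℝ in atTop, ∀ H : ℝ, X / (16 * T) ≤ H → H ≤ 4 * X / T → VV X H ≤ C * H) {ε : ℝ}
    (hε : 0 < ε) :
    ∃ᶠ z : ℝ in atTop, ∫ X in (1 : ℝ)..z, JV T X ≤ (C * Real.log 64 + ε) * Real.log z := by
  have hT0 : 0 < T := by linarith
  have h64 := log64_nonneg
  obtain ⟨X₁, hX₁⟩ := eventually_atTop.1 h
  set X₀ : ℝ := max X₁ 1 with hX₀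
  have hX₀1 : 1 ≤ X₀ := le_max_right _ _
  set D : ℝ := ∫ X in (1 : ℝ)..X₀, JV T X with hD
  have h1 : ∀ᶠ z : ℝ in atTop, |D| / ε ≤ Real.log z := Real.tendsto_log_atTop.eventually_ge_atTop _
  refine Eventually.frequently ?_
  filter_upwards [h1, eventually_ge_atTop X₀] with z g1 g2
  have hz1 : 1 ≤ z := hX₀1.trans g2
  have e1 := Pool.Agent.K1H70.GC.QV_real (T := T) hT0 one_pos hz1
  have e2 := Pool.Agent.K1H70.GC.QV_real (T := T) hT0 one_pos hX₀1
  have e3 := QQ_of_large (C := C) hT hX₀1 g2 hC fun X H hX => hX₁ X (le_trans (le_max_left _ _) hX) H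
  have e4 : QQ (fun X H => ENNReal.ofReal (VV X H / (H ^ 2 * X))) T 16 4 1 z =
      QQ (fun X H => ENNReal.ofReal (VV X H / (H ^ 2 * X))) T 16 4 1 X₀ +
      QQ (fun X H => ENNReal.ofReal (VV X H / (H ^ 2 * X))) T 16 4 X₀ z := by
    unfold Pool.Agent.K1H70.GC.QQ
    rw [← Ioc_union_Ioc_eq_Ioc hX₀1 g2, lintegral_union measurableSet_Ioc (Ioc_disjoint_Ioc_of_le le_rfl)]
  have hlog := Real.log_nonneg hz1
  have h2 : ENNReal.ofReal (∫ X in (1 : ℝ)..z, JV T X) ≤
      ENNReal.ofReal (|D| + C * Real.log 64 * Real.log z) := by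
    rw [← e1, e4, e2, ENNReal.ofReal_add (abs_nonneg _) (by positivity)]
    exact add_le_add (ENNReal.ofReal_le_ofReal (le_abs_self D)) e3
  rw [ENNReal.ofReal_le_ofReal_iff (by positivity)] at h2
  rw [div_le_iff₀ hε] at g1
  linarith

end

end Pool.Agent.J6H10.GC
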