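import Pool.Agent.H295R2.WM8

/-! # The Laplace transform of `M(e^u)` and Plancherel's formula for its differences -/

set_option autoImplicit false

open MeasureTheory Filter Topology Set
open Pool.Agent.H295R2

namespace Pool.Agent.J6H10.GC

noncomputable section

/-- `M(e^u)` -/
def kM (u : ℝ) : ℂ := ((Mx (Real.exp u) : ℝ) : ℂ)

lemma kM_meas : Measurable kM :=
  Complex.measurable_ofReal.comp (Mx_meas.comp Real.measurable_exp)

lemma kM_zero {u : ℝ} (hu : u < 0) : kM u = 0 := by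
  unfold kM Mx
  have h1 : ⌊Real.exp u⌋₊ = 0 := by
    rw [Nat.floor_eq_zero]
    rw [← Real.exp_zero]; exact Real.exp_lt_exp.2 hu
  rw [h1]; simp

lemma kM_nice1 : Nice kM 1 1 0 where
  meas := kM_meas
  bound := by
    intro u
    unfold kM
    rw [Complex.norm_real, Real.norm_eq_abs, one_mul, one_mul]
    exact abs_Mx_le (Real.exp_pos u).le
  zero := fun u hu => kM_zero hu

lemma kM_nice {C σ : ℝ} (hC : 0 < C) (h : ∀ y : ℝ, 1 ≤ y → |Mx y| ≤ C * y ^ σ) : Nice kM C σ 0 where
  meas := kM_meas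
  bound := by
    intro u
    rcases lt_or_ge u 0 with hu | hu
    · rw [kM_zero hu, norm_zero]; positivity
    · unfold kM
      rw [Complex.norm_real, Real.norm_eq_abs]
      have := h (Real.exp u) (Real.one_le_exp hu)
      rwa [← Real.exp_mul, mul_comm u σ] at this
  zero := fun u hu => kM_zero hu

lemma Lap_kM_big {s : ℂ} (hs : 1 < s.re) : s * Lap kM s = fz s := by
  have hO : (fun n : ℕ => ∑ k ∈ Finset.Icc 1 n, ‖((ArithmeticFunction.moebius k : ℤ) : ℂ)‖) =O[atTop]
      fun n : ℕ => (n : ℝ) ^ (1:ℝ) := by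
    refine Asymptotics.isBigO_of_le _ fun n => ?_
    rw [Real.norm_of_nonneg (Finset.sum_nonneg fun _ _ => norm_nonneg _), Real.rpow_one,
      Real.norm_of_nonneg (Nat.cast_nonneg n)]
    calc ∑ k ∈ Finset.Icc 1 n, ‖((ArithmeticFunction.moebius k : ℤ) : ℂ)‖
        ≤ ∑ k ∈ Finset.Icc 1 n, (1:ℝ) := by
          refine Finset.sum_le_sum fun j _ => ?_
          rw [Complex.norm_intCast]
          exact abs_mu_le j
      _ = n := by simp
  have h1 := LSeries_eq_mul_integral' (fun k : ℕ => ((ArithmeticFunction.moebius k : ℤ) : ℂ)) (r := 1)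
    (by norm_num) (s := s) hs hO
  have h2 : LSeries (fun k : ℕ => ((ArithmeticFunction.moebius k : ℤ) : ℂ)) s = fz s :=
    (moebius_lseries hs).LSeries_eq
  rw [← h2, h1]
  congr 1
  rw [integral_Ioi_exp]
  unfold Lap
  rw [← setIntegral_eq_integral_of_forall_compl_eq_zero (s := Ici (0:ℝ)), integral_Ici_eq_integral_Ioi]
  · apply setIntegral_congr_fun measurableSet_Ioi
    intro u _
    simp only
    have e0 : kM u = ∑ k ∈ Finset.Icc 1 ⌊Real.exp u⌋₊, ((ArithmeticFunction.moebius k : ℤ) : ℂ) := by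
      unfold kM Mx mu
      push_cast
      rfl
    have hne : ((Real.exp u : ℝ) : ℂ) ≠ 0 := by exact_mod_cast (Real.exp_pos u).ne'
    rw [e0, Complex.cpow_def_of_ne_zero hne, ← Complex.ofReal_log (Real.exp_pos u).le, Real.log_exp]
    have e1 : ((Real.exp u : ℝ) : ℂ) = Complex.exp u := Complex.ofReal_exp u
    rw [e1]
    have e2 : Complex.exp (-(s * u)) = Complex.exp u * Complex.exp ((u : ℂ) * (-(s + 1))) := by
      rw [← Complex.exp_add]; ring_nf
    rw [e2]; ring
  · intro u hu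
    have : u < 0 := by simpa using hu
    rw [kM_zero this, zero_mul]

/-- the Laplace transform of `M(e^u)` in a zero-free half plane -/
lemma Lap_kM {a C : ℝ} (hz : ∀ s : ℂ, a < s.re → Zs s ≠ 0) (hk : Nice kM C a 0) (ha : a < 2)
    {s : ℂ} (hs : a < s.re) : s * Lap kM s = fz s := by
  have hU : IsOpen {s : ℂ | a < s.re} := halfplane_open _
  have hf : AnalyticOnNhd ℂ (fun s => s * Lap kM s) {s : ℂ | a < s.re} := by
    refine DifferentiableOn.analyticOnNhd (fun s hs => ?_) hU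
    exact (DifferentiableAt.mul (by fun_prop) (hk.Lap_differentiableAt hs)).differentiableWithinAt
  have hg : AnalyticOnNhd ℂ fz {s : ℂ | a < s.re} := by
    refine DifferentiableOn.analyticOnNhd (fun s hs => ?_) hU
    exact (fz_differentiableAt (hz s hs)).differentiableWithinAt
  have heq : (fun s => s * Lap kM s) =ᶠ[𝓝 (2:ℂ)] fz := by
    have hopen : {s : ℂ | 1 < s.re} ∈ 𝓝 (2:ℂ) := (halfplane_open 1).mem_nhds (by simp)
    filter_upwards [hopen] with s hs
    exact Lap_kM_big hs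
  have := hf.eqOn_of_preconnected_of_eventuallyEq hg (halfplane_preconnected _) (z₀ := 2)
    (by simpa using ha) heq
  exact this hs

lemma shift_nice {k : ℝ → ℂ} {C a u₀ h : ℝ} (hk : Nice k C a u₀) (h0 : 0 < h) :
    Nice (fun u => k (u + h) - k u) (C * (Real.exp (a * h) + 1)) a (u₀ - h) where
  meas := (hk.meas.comp (measurable_id.add_const h)).sub hk.meas
  bound := by
    intro u
    have h1 := hk.bound (u + h)
    have h2 := hk.bound u
    refine (norm_sub_le _ _).trans ?_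
    calc ‖k (u + h)‖ + ‖k u‖ ≤ C * Real.exp (a * (u + h)) + C * Real.exp (a * u) := add_le_add h1 h2
      _ = C * (Real.exp (a * h) + 1) * Real.exp (a * u) := by
        rw [mul_add a, Real.exp_add]
        ring
  zero := by
    intro u hu
    rw [hk.zero (u + h) (by linarith), hk.zero u (by linarith), sub_zero]

lemma shift_Lap {k : ℝ → ℂ} {C a u₀ h : ℝ} (hk : Nice k C a u₀) {s : ℂ} (hs : a < s.re) :
    Lap (fun u => k (u + h) - k u) s = (Complex.exp (s * h) - 1) * Lap k s := by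
  have h1 := hk.Lap_shift s h
  have h2 : Lap (fun u => k (u + h) - k u) s =
      (∫ u : ℝ, k (u + h) * Complex.exp (-(s * u))) - ∫ u : ℝ, k u * Complex.exp (-(s * u)) := by
    unfold Lap
    rw [← integral_sub (hk.shift_integrable hs h) (hk.integrable hs)]
    refine integral_congr_ae (Eventually.of_forall fun u => ?_)
    simp only
    ring
  rw [h2, h1]
  unfold Lap
  ring

/-- Plancherel's formula for the differences -/
lemma planch_kM {a C σ τ : ℝ} (hz : ∀ s : ℂ, a < s.re → Zs s ≠ 0) (hk : Nice kM C a 0) (ha0 : 0 ≤ a)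
    (ha : a < 2) (hσ : a < σ) (hτ : 0 < τ) :
    Integrable (fun ξ : ℝ => (τ * ‖phi τ (σ + 2 * Real.pi * ξ * Complex.I)‖ *
      ‖fz (σ + 2 * Real.pi * ξ * Complex.I)‖) ^ 2) ∧
    ∫ ξ : ℝ, (τ * ‖phi τ (σ + 2 * Real.pi * ξ * Complex.I)‖ *
      ‖fz (σ + 2 * Real.pi * ξ * Complex.I)‖) ^ 2 =
      ∫ u : ℝ, ‖kM (u + τ) - kM u‖ ^ 2 * Real.exp (-(2 * σ * u)) := by
  obtain ⟨p1, p2⟩ := plancherel_Lap (shift_nice hk hτ) hσ
  have e : ∀ ξ : ℝ, ‖Lap (fun u => kM (u + τ) - kM u) (σ + 2 * Real.pi * ξ * Complex.I)‖ ^ 2 =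
      (τ * ‖phi τ (σ + 2 * Real.pi * ξ * Complex.I)‖ *
      ‖fz (σ + 2 * Real.pi * ξ * Complex.I)‖) ^ 2 := by
    intro ξ
    set s : ℂ := (σ : ℂ) + 2 * Real.pi * ξ * Complex.I with hs
    have hre : s.re = σ := by rw [hs, line_re]
    have hsa : a < s.re := by rw [hre]; exact hσ
    have hs0 : s ≠ 0 := by
      rintro h
      rw [h] at hre
      simp at hre
      linarith
    have hτ' : (τ : ℂ) ≠ 0 := by exact_mod_cast hτ.ne'
    rw [shift_Lap hk hsa, ← Lap_kM hz hk ha hsa]
    congr 1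
    have e1 : (Complex.exp (s * τ) - 1) * Lap kM s = (τ : ℂ) * phi τ s * (s * Lap kM s) := by
      unfold phi
      field_simp
    rw [e1, norm_mul, norm_mul, Complex.norm_real, Real.norm_of_nonneg hτ.le]
  simp_rw [e] at p1 p2
  exact ⟨p1, p2⟩

end

end Pool.Agent.J6H10.GC
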