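import Pool.Agent.J6H10.GC.L1

/-! # The weighted mean square of the differences of `M` at a fixed ratio, in a zero-free half plane -/

set_option autoImplicit false

open MeasureTheory Filter Topology Set
open Pool.Agent.H295R2

namespace Pool.Agent.J6H10.GC

noncomputable section

lemma norm_phi_pow2 {η a : ℝ} {s : ℂ} (hη : 0 < η) (hη1 : η ≤ 1) (hs : 1 / 4 ≤ s.re) (hs2 : s.re ≤ 2)
    (ha : 0 ≤ a) (ha2 : a ≤ 2) :
    ‖phi η s‖ ^ 2 ≤ 3025 * (η * (1 + |s.im|)) ^ (-a) := by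
  have hre : 0 < s.re := by linarith
  have h1 := norm_phi_le hη hη1 hre hs2
  have h2 := norm_phi_le' hη hη1 hre hs2
  have hb : 0 < η * (1 + |s.im|) := by positivity
  have hs0 : 1 / 4 ≤ ‖s‖ := hs.trans ((le_abs_self _).trans (Complex.abs_re_le_norm s))
  have hs1 : |s.im| ≤ ‖s‖ := Complex.abs_im_le_norm s
  rcases le_or_gt (η * (1 + |s.im|)) 1 with h | h
  · have h3 : 1 ≤ (η * (1 + |s.im|)) ^ (-a) :=
      Real.one_le_rpow_of_pos_of_le_one_of_nonpos hb h (by linarith)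
    nlinarith [norm_nonneg (phi η s)]
  · have h3 : (η * (1 + |s.im|)) ^ (-(2:ℝ)) ≤ (η * (1 + |s.im|)) ^ (-a) :=
      Real.rpow_le_rpow_of_exponent_le h.le (by linarith)
    have h4 : (η * (1 + |s.im|)) ^ (-(2:ℝ)) = (1 / (η * (1 + |s.im|))) ^ 2 := by
      rw [Real.rpow_neg hb.le, one_div, inv_pow]
      congr 1
      exact_mod_cast Real.rpow_natCast (η * (1 + |s.im|)) 2
    have h5 : 11 / (η * ‖s‖) ≤ 55 / (η * (1 + |s.im|)) := by
      rw [div_le_div_iff₀ (by positivity) hb]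
      have : 1 + |s.im| ≤ 5 * ‖s‖ := by linarith
      nlinarith
    calc ‖phi η s‖ ^ 2 ≤ (55 / (η * (1 + |s.im|))) ^ 2 :=
          pow_le_pow_left₀ (norm_nonneg _) (h2.trans h5) 2
      _ = 3025 * (η * (1 + |s.im|)) ^ (-(2:ℝ)) := by rw [h4]; ring
      _ ≤ 3025 * (η * (1 + |s.im|)) ^ (-a) := by gcongr

/-- the power saving for the differences at a fixed ratio -/
theorem diff_bound {θ σ ε : ℝ} (hθ : 1 / 4 ≤ θ) (hz : ∀ s : ℂ, θ < s.re → Zs s ≠ 0) (hσ : θ < σ)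
    (hσ2 : σ ≤ 2) (hε : 0 < ε) (hε1 : 3 * ε ≤ 1) :
    ∃ C : ℝ, 0 < C ∧ ∀ τ : ℝ, 0 < τ → τ ≤ 1 →
      ∫ u : ℝ, ‖kM (u + τ) - kM u‖ ^ 2 * Real.exp (-(2 * σ * u)) ≤ C * τ ^ (1 - 3 * ε) ∧
      Integrable (fun u : ℝ => ‖kM (u + τ) - kM u‖ ^ 2 * Real.exp (-(2 * σ * u))) := by
  set σ' : ℝ := (θ + σ) / 2 with hσ'
  have h1 : θ < σ' := by rw [hσ']; linarith
  have h2 : σ' < σ := by rw [hσ']; linarith
  obtain ⟨CM, hCM0, hCM⟩ := mertens_bound hθ hz h1 (by linarith)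
  obtain ⟨Cf, hCf0, hCf⟩ := fz_bound hθ hz hσ hε
  have hk := kM_nice hCM0 hCM
  set I0 : ℝ := ∫ ξ : ℝ, (1 + |2 * Real.pi * ξ|) ^ (-(1 + ε)) with hI0
  have hI0' : 0 ≤ I0 := integral_nonneg fun ξ => by positivity
  refine ⟨3025 * Cf ^ 2 * I0 + 1, by positivity, fun τ hτ hτ1 => ?_⟩
  obtain ⟨p1, p2⟩ := planch_kM (a := σ') (σ := σ) (τ := τ) (fun s hs => hz s (h1.trans hs)) hk
    (by linarith) (by linarith) h2 hτ
  constructor
  · rw [← p2]
    have hi := (integrable_decay' (a := 1 + ε) (by linarith)).const_mul (3025 * Cf ^ 2 * τ ^ (1 - 3 * ε))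
    have hle : ∫ ξ : ℝ, (τ * ‖phi τ (σ + 2 * Real.pi * ξ * Complex.I)‖ *
        ‖fz (σ + 2 * Real.pi * ξ * Complex.I)‖) ^ 2 ≤
        ∫ ξ : ℝ, 3025 * Cf ^ 2 * τ ^ (1 - 3 * ε) * (1 + |2 * Real.pi * ξ|) ^ (-(1 + ε)) := by
      refine integral_mono p1 hi fun ξ => ?_
      have h3 := norm_phi_pow2 (a := 1 + 3 * ε) (s := σ + 2 * Real.pi * ξ * Complex.I) hτ hτ1
        (by rw [line_re]; linarith) (by rw [line_re]; exact hσ2) (by positivity) (by linarith)
      have h4 := hCf (σ + 2 * Real.pi * ξ * Complex.I) (by rw [line_re]) (by rw [line_re]; exact hσ2)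
      rw [line_im] at h3 h4
      have hb : 0 < 1 + |2 * Real.pi * ξ| := by positivity
      simp only
      calc (τ * ‖phi τ (σ + 2 * Real.pi * ξ * Complex.I)‖ *
            ‖fz (σ + 2 * Real.pi * ξ * Complex.I)‖) ^ 2
          = τ ^ 2 * ‖phi τ (σ + 2 * Real.pi * ξ * Complex.I)‖ ^ 2 *
            ‖fz (σ + 2 * Real.pi * ξ * Complex.I)‖ ^ 2 := by ring
        _ ≤ τ ^ 2 * (3025 * (τ * (1 + |2 * Real.pi * ξ|)) ^ (-(1 + 3 * ε))) *
            (Cf * (1 + |2 * Real.pi * ξ|) ^ ε) ^ 2 := by gcongr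
        _ = 3025 * Cf ^ 2 * (τ ^ (2:ℝ) * τ ^ (-(1 + 3 * ε))) * ((1 + |2 * Real.pi * ξ|) ^ (-(1 + 3 * ε)) *
            ((1 + |2 * Real.pi * ξ|) ^ ε * (1 + |2 * Real.pi * ξ|) ^ ε)) := by
            rw [Real.mul_rpow hτ.le hb.le, Real.rpow_two]
            ring
        _ = 3025 * Cf ^ 2 * τ ^ (1 - 3 * ε) * (1 + |2 * Real.pi * ξ|) ^ (-(1 + ε)) := by
            rw [← Real.rpow_add hτ, ← Real.rpow_add hb, ← Real.rpow_add hb]
            congr 2
            · congr 1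
              ring
            · ring
    refine hle.trans ?_
    rw [integral_const_mul, ← hI0]
    have : 0 ≤ τ ^ (1 - 3 * ε) := by positivity
    nlinarith
  · have hdom := integrable_ind_exp (by linarith : 2 * (σ' - σ) < 0)
      ((CM * (Real.exp (σ' * τ) + 1)) ^ 2) (0 - τ)
    refine hdom.mono' ?_ (Eventually.of_forall fun u => ?_)
    · refine AEStronglyMeasurable.mul ?_ ?_
      · exact ((shift_nice hk hτ).meas.norm.pow_const 2).aestronglyMeasurable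
      · exact Continuous.aestronglyMeasurable (by fun_prop)
    · rw [Real.norm_of_nonneg (by positivity)]
      by_cases hu : u ∈ Ici (0 - τ)
      · rw [indicator_of_mem hu]
        have h6 := (shift_nice hk hτ).bound u
        calc ‖kM (u + τ) - kM u‖ ^ 2 * Real.exp (-(2 * σ * u))
            ≤ (CM * (Real.exp (σ' * τ) + 1) * Real.exp (σ' * u)) ^ 2 * Real.exp (-(2 * σ * u)) := by
              gcongr
          _ = (CM * (Real.exp (σ' * τ) + 1)) ^ 2 * Real.exp (2 * (σ' - σ) * u) := by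
              rw [mul_pow _ (Real.exp (σ' * u)), mul_assoc, ← Real.exp_nat_mul, ← Real.exp_add]
              congr 2
              push_cast
              ring
      · rw [indicator_of_notMem hu]
        have h6 := (shift_nice hk hτ).zero u (by simpa using hu)
        rw [h6]
        simp

end

end Pool.Agent.J6H10.GC
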