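import Pool.Agent.J6H10.GC.L2
import Pool.Agent.K1H70.GC.RealInt

/-! # From differences at a fixed ratio to differences at a fixed distance -/

set_option autoImplicit false

open MeasureTheory Filter Topology Set
open Pool.Agent.H295R2 hiding VV
open Pool.Agent.H448R2.GC (Mer MH VV)
open Pool.Agent.K1H70.GC (md mg)

namespace Pool.Agent.J6H10.GC

noncomputable section

/-- the square of the sum over `(y, y e^τ]` -/
def Gd (τ y : ℝ) : ℝ := (Mer (y * Real.exp τ) - Mer y) ^ 2

lemma Gd_nonneg (τ y : ℝ) : 0 ≤ Gd τ y := sq_nonneg _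

lemma Gd_meas : Measurable (fun p : ℝ × ℝ => Gd p.1 p.2) := by
  have hM : Measurable Mer := Pool.Agent.H448R2.GC.SV.meas_Mer
  exact ((hM.comp (measurable_snd.mul (Real.measurable_exp.comp measurable_fst))).sub
    (hM.comp measurable_snd)).pow_const 2

/-- the integral over the ratios `e^τ`, `0 < τ ≤ b` -/
def Wd (b y : ℝ) : ENNReal := ∫⁻ τ in Ioc 0 b, ENNReal.ofReal (Gd τ y)

lemma Wd_meas (b : ℝ) : Measurable (Wd b) := by
  unfold Wd
  have h : Measurable (fun p : ℝ × ℝ => ENNReal.ofReal (Gd p.2 p.1)) :=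
    (Gd_meas.comp measurable_swap).ennreal_ofReal
  exact h.lintegral_prod_right'

/-- the comparison at one point -/
lemma pt_le {a y H : ℝ} (hy : 0 < y) (hH : 0 < H) (ha : H / y ≤ 2 * a) :
    ENNReal.ofReal (2 * a) * ENNReal.ofReal (mg y H) ≤ 2 * Wd (4 * a) y + 2 * Wd (4 * a) (y + H) := by
  have ha0 : 0 < a := by
    have : 0 < H / y := by positivity
    linarith
  set l : ℝ := Real.log (1 + H / y) with hl
  have hpos : 0 < 1 + H / y := by positivity
  have hl0 : 0 ≤ l := Real.log_nonneg (by have : 0 < H / y := by positivity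
                                          linarith)
  have hl1 : l ≤ 2 * a := by
    have := Real.log_le_sub_one_of_pos hpos
    rw [hl]
    linarith
  have hexp : y * Real.exp l = y + H := by
    rw [hl, Real.exp_log hpos]
    field_simp
  have hm1 : Measurable (fun τ : ℝ => ENNReal.ofReal (Gd τ y)) :=
    (Gd_meas.comp measurable_prodMk_right).ennreal_ofReal
  have e1 : ENNReal.ofReal (2 * a) * ENNReal.ofReal (mg y H) =
      ∫⁻ _τ in Ioc (2 * a) (4 * a), ENNReal.ofReal (mg y H) := by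
    rw [setLIntegral_const, Real.volume_Ioc, mul_comm]
    congr 2
    ring
  rw [e1]
  have e2 : ∫⁻ _τ in Ioc (2 * a) (4 * a), ENNReal.ofReal (mg y H) ≤
      ∫⁻ τ in Ioc (2 * a) (4 * a), (2 * ENNReal.ofReal (Gd τ y) +
        2 * ENNReal.ofReal (Gd (τ - l) (y + H))) := by
    refine lintegral_mono fun τ => ?_
    have n1 := Gd_nonneg τ y
    have n2 := Gd_nonneg (τ - l) (y + H)
    have c2 : (2 : ENNReal) = ENNReal.ofReal 2 := by simp
    rw [c2, ← ENNReal.ofReal_mul (by norm_num), ← ENNReal.ofReal_mul (by norm_num),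
      ← ENNReal.ofReal_add (by positivity) (by positivity)]
    apply ENNReal.ofReal_le_ofReal
    have e : (y + H) * Real.exp (τ - l) = y * Real.exp τ := by
      rw [← hexp, mul_assoc, ← Real.exp_add]
      congr 2
      ring
    unfold Gd mg
    rw [e]
    nlinarith [sq_nonneg ((Mer (y * Real.exp τ) - Mer y) + (Mer (y * Real.exp τ) - Mer (y + H)))]
  refine e2.trans ?_
  rw [lintegral_add_left (hm1.const_mul _), lintegral_const_mul _ hm1,
    lintegral_const_mul' _ _ (by norm_num)]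
  refine add_le_add (mul_le_mul' le_rfl ?_) (mul_le_mul' le_rfl ?_)
  · unfold Wd
    exact lintegral_mono_set (Ioc_subset_Ioc_left (by linarith))
  · unfold Wd
    have h3 : ∫⁻ τ in Ioc (2 * a) (4 * a), ENNReal.ofReal (Gd (τ - l) (y + H)) =
        ∫⁻ τ in Ioc (2 * a - l) (4 * a - l), ENNReal.ofReal (Gd τ (y + H)) := by
      rw [← lintegral_indicator measurableSet_Ioc, ← lintegral_indicator measurableSet_Ioc,
        ← lintegral_sub_right_eq_self (fun τ => (Ioc (2 * a - l) (4 * a - l)).indicator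
          (fun τ => ENNReal.ofReal (Gd τ (y + H))) τ) l]
      refine lintegral_congr fun τ => ?_
      by_cases hh : τ ∈ Ioc (2 * a) (4 * a)
      · rw [indicator_of_mem hh, indicator_of_mem]
        exact ⟨by linarith [hh.1], by linarith [hh.2]⟩
      · rw [indicator_of_notMem hh, indicator_of_notMem]
        intro hc
        exact hh ⟨by linarith [hc.1], by linarith [hc.2]⟩
    rw [h3]
    exact lintegral_mono_set (Ioc_subset_Ioc (by linarith) (by linarith))

/-- a translation -/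
lemma lint_shift (F : ℝ → ENNReal) (a b c : ℝ) :
    ∫⁻ y in Ioc a b, F (y + c) = ∫⁻ y in Ioc (a + c) (b + c), F y := by
  rw [← lintegral_indicator measurableSet_Ioc, ← lintegral_indicator measurableSet_Ioc,
    ← lintegral_add_right_eq_self (fun y => (Ioc (a + c) (b + c)).indicator F y) c]
  refine lintegral_congr fun y => ?_
  by_cases hh : y ∈ Ioc a b
  · rw [indicator_of_mem hh, indicator_of_mem]
    exact ⟨by linarith [hh.1], by linarith [hh.2]⟩
  · rw [indicator_of_notMem hh, indicator_of_notMem]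
    intro hc
    exact hh ⟨by linarith [hc.1], by linarith [hc.2]⟩

/-- the variance and the differences at a fixed ratio -/
theorem VV_le {X H : ℝ} (hH : 0 < H) (hHX : H ≤ X) :
    ENNReal.ofReal H * ENNReal.ofReal (VV X H) ≤
      2 * ∫⁻ y in Ioc (X / 2) (3 * X), Wd (4 * (H / X)) y := by
  have hX : 0 < X := hH.trans_le hHX
  set a : ℝ := H / X with ha
  have ha0 : 0 < a := by positivity
  have hVV : ENNReal.ofReal X * ENNReal.ofReal (VV X H) =
      ∫⁻ x in Ioc X (2 * X), ENNReal.ofReal (md x H) := by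
    rw [Pool.Agent.K1H70.GC.VV_eq hX hH, ← ENNReal.ofReal_mul hX.le,
      ← ofReal_integral_eq_lintegral_ofReal (Pool.Agent.K1H70.GC.md_int hH)
      (Eventually.of_forall fun x => Pool.Agent.K1H70.GC.md_nonneg x H)]
    congr 1
    field_simp
  have h1 : ∫⁻ x in Ioc X (2 * X), ENNReal.ofReal (md x H) ≤
      ∫⁻ y in Ioc (X / 2) (2 * X), ENNReal.ofReal (mg y H) := by
    have e : ∀ x : ℝ, md x H = mg (x + (-(H / 2))) H := by
      intro x
      unfold md mg
      congr 3
      ring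
    simp_rw [e]
    rw [lint_shift (fun y => ENNReal.ofReal (mg y H))]
    exact lintegral_mono_set (Ioc_subset_Ioc (by linarith) (by linarith))
  have h2 : ENNReal.ofReal (2 * a) * ∫⁻ y in Ioc (X / 2) (2 * X), ENNReal.ofReal (mg y H) ≤
      ∫⁻ y in Ioc (X / 2) (2 * X), (2 * Wd (4 * a) y + 2 * Wd (4 * a) (y + H)) := by
    rw [← lintegral_const_mul' _ _ ENNReal.ofReal_ne_top]
    refine setLIntegral_mono' measurableSet_Ioc fun y hy => ?_
    have hy0 : 0 < y := lt_trans (by positivity) hy.1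
    refine pt_le hy0 hH ?_
    rw [ha, div_le_iff₀ hy0]
    have : 2 * (H / X) * y = H * (2 * y / X) := by ring
    rw [this]
    have h3 : 1 ≤ 2 * y / X := by
      rw [le_div_iff₀ hX]
      linarith [hy.1]
    nlinarith
  have h3 : ∫⁻ y in Ioc (X / 2) (2 * X), (2 * Wd (4 * a) y + 2 * Wd (4 * a) (y + H)) ≤
      4 * ∫⁻ y in Ioc (X / 2) (3 * X), Wd (4 * a) y := by
    rw [lintegral_add_left ((Wd_meas _).const_mul _), lintegral_const_mul _ (Wd_meas _),
      lintegral_const_mul' _ _ (by norm_num), lint_shift (Wd (4 * a))]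
    have e4 : (4 : ENNReal) = 2 + 2 := by norm_num
    rw [e4, add_mul]
    refine add_le_add (mul_le_mul' le_rfl ?_) (mul_le_mul' le_rfl ?_)
    · exact lintegral_mono_set (Ioc_subset_Ioc_right (by linarith))
    · exact lintegral_mono_set (Ioc_subset_Ioc (by linarith) (by linarith))
  have h4 : 2 * (ENNReal.ofReal H * ENNReal.ofReal (VV X H)) ≤
      2 * (2 * ∫⁻ y in Ioc (X / 2) (3 * X), Wd (4 * a) y) := by
    have e5 : 2 * (ENNReal.ofReal H * ENNReal.ofReal (VV X H)) =
        ENNReal.ofReal (2 * a) * (ENNReal.ofReal X * ENNReal.ofReal (VV X H)) := by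
      rw [← mul_assoc, ← mul_assoc, ← ENNReal.ofReal_mul (by positivity)]
      congr 1
      have c2 : (2 : ENNReal) = ENNReal.ofReal 2 := by simp
      rw [c2, ← ENNReal.ofReal_mul (by norm_num)]
      congr 1
      rw [ha]
      field_simp
    rw [e5, hVV, ← mul_assoc 2 2]
    have e6 : (2 : ENNReal) * 2 = 4 := by norm_num
    rw [e6]
    exact ((mul_le_mul' le_rfl h1).trans h2).trans h3
  exact (ENNReal.mul_le_mul_iff_right (by norm_num) (by norm_num)).1 h4

/-- the substitution `y = e^u` -/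
lemma lint_exp (g : ℝ → ENNReal) :
    ∫⁻ y in Ioi (0 : ℝ), g y = ∫⁻ u : ℝ, ENNReal.ofReal (Real.exp u) * g (Real.exp u) := by
  have h := lintegral_image_eq_lintegral_abs_deriv_mul (s := univ) (f := Real.exp)
    (f' := Real.exp) MeasurableSet.univ
    (fun x _ => (Real.hasDerivAt_exp x).hasDerivWithinAt) Real.exp_injective.injOn g
  rw [image_univ, Real.range_exp] at h
  rw [h, Measure.restrict_univ]
  refine lintegral_congr fun u => ?_
  rw [abs_of_pos (Real.exp_pos u)]

lemma Gd_exp (τ u : ℝ) : Gd τ (Real.exp u) = ‖kM (u + τ) - kM u‖ ^ 2 := by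
  unfold Gd kM
  rw [← Complex.ofReal_sub, Complex.norm_real, Real.norm_eq_abs, sq_abs, ← Real.exp_add]
  rfl

/-- the mean square over `(X/2, 3X]` in terms of the weighted one -/
lemma block_le {X σ τ : ℝ} (hX : 0 < X) (hσ : 0 ≤ σ) {B : ℝ}
    (hB : ∫ u : ℝ, ‖kM (u + τ) - kM u‖ ^ 2 * Real.exp (-(2 * σ * u)) ≤ B)
    (hi : Integrable (fun u : ℝ => ‖kM (u + τ) - kM u‖ ^ 2 * Real.exp (-(2 * σ * u)))) :
    ∫⁻ y in Ioc (X / 2) (3 * X), ENNReal.ofReal (Gd τ y) ≤
      ENNReal.ofReal ((3 * X) ^ (2 * σ + 1) * B) := by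
  have h1 : ∫⁻ y in Ioc (X / 2) (3 * X), ENNReal.ofReal (Gd τ y) =
      ∫⁻ y in Ioi (0 : ℝ), (Ioc (X / 2) (3 * X)).indicator (fun y => ENNReal.ofReal (Gd τ y)) y := by
    rw [setLIntegral_indicator measurableSet_Ioc, inter_eq_left.2]
    intro y hy
    exact lt_trans (by positivity) hy.1
  rw [h1, lint_exp]
  have h2 : ∫⁻ u : ℝ, ENNReal.ofReal (Real.exp u) *
      (Ioc (X / 2) (3 * X)).indicator (fun y => ENNReal.ofReal (Gd τ y)) (Real.exp u) ≤
      ∫⁻ u : ℝ, ENNReal.ofReal ((3 * X) ^ (2 * σ + 1)) *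
        ENNReal.ofReal (‖kM (u + τ) - kM u‖ ^ 2 * Real.exp (-(2 * σ * u))) := by
    refine lintegral_mono fun u => ?_
    by_cases hu : Real.exp u ∈ Ioc (X / 2) (3 * X)
    · rw [indicator_of_mem hu, ← ENNReal.ofReal_mul (Real.exp_pos u).le,
        ← ENNReal.ofReal_mul (by positivity)]
      apply ENNReal.ofReal_le_ofReal
      rw [Gd_exp]
      have h3 : Real.exp u ≤ (3 * X) ^ (2 * σ + 1) * Real.exp (-(2 * σ * u)) := by
        have h4 : Real.exp u ^ (2 * σ + 1) ≤ (3 * X) ^ (2 * σ + 1) :=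
          Real.rpow_le_rpow (Real.exp_pos u).le hu.2 (by linarith)
        calc Real.exp u = Real.exp u ^ (2 * σ + 1) * Real.exp (-(2 * σ * u)) := by
              rw [← Real.exp_mul, ← Real.exp_add]
              congr 1
              ring
          _ ≤ _ := mul_le_mul_of_nonneg_right h4 (Real.exp_pos _).le
      calc Real.exp u * ‖kM (u + τ) - kM u‖ ^ 2
          ≤ ((3 * X) ^ (2 * σ + 1) * Real.exp (-(2 * σ * u))) * ‖kM (u + τ) - kM u‖ ^ 2 :=
            mul_le_mul_of_nonneg_right h3 (by positivity)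
        _ = _ := by ring
    · rw [indicator_of_notMem hu, mul_zero]
      exact zero_le
  refine h2.trans ?_
  rw [lintegral_const_mul' _ _ ENNReal.ofReal_ne_top,
    ← ofReal_integral_eq_lintegral_ofReal hi (Eventually.of_forall fun u => by positivity),
    ← ENNReal.ofReal_mul (by positivity)]
  apply ENNReal.ofReal_le_ofReal
  gcongr

/-- **The upper bound for the variance in a zero-free half plane** (`4H ≤ X`). -/
theorem VV_upper_small {θ σ ε : ℝ} (hθ : 1 / 4 ≤ θ) (hz : ∀ s : ℂ, θ < s.re → Zs s ≠ 0) (hσ : θ < σ)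
    (hσ2 : σ ≤ 2) (hε : 0 < ε) (hε1 : 3 * ε ≤ 1) :
    ∃ C : ℝ, 0 < C ∧ ∀ X H : ℝ, 0 < H → 4 * H ≤ X →
      VV X H ≤ C * X ^ (2 * σ) * (H / X) ^ (1 - 3 * ε) := by
  obtain ⟨C, hC, hD⟩ := diff_bound hθ hz hσ hσ2 hε hε1
  refine ⟨8 * 3 ^ (2 * σ + 1) * C * 4 ^ (1 - 3 * ε), by positivity, fun X H hH hHX => ?_⟩
  have hX : 0 < X := by linarith
  set a : ℝ := H / X with ha
  have ha0 : 0 < a := by positivity
  have ha1 : 4 * a ≤ 1 := by
    rw [ha, ← mul_div_assoc, div_le_one hX]
    exact hHX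
  have h1 := VV_le hH (by linarith : H ≤ X)
  rw [← ha] at h1
  set B : ℝ := (3 * X) ^ (2 * σ + 1) * (C * (4 * a) ^ (1 - 3 * ε)) with hB
  have hB0 : 0 ≤ B := by positivity
  have h2 : ∫⁻ y in Ioc (X / 2) (3 * X), Wd (4 * a) y ≤ ENNReal.ofReal (4 * a * B) := by
    unfold Wd
    rw [lintegral_lintegral_swap
      ((Gd_meas.comp measurable_swap).ennreal_ofReal.aemeasurable)]
    calc ∫⁻ τ in Ioc 0 (4 * a), ∫⁻ y in Ioc (X / 2) (3 * X), ENNReal.ofReal (Gd τ y)
        ≤ ∫⁻ _τ in Ioc 0 (4 * a), ENNReal.ofReal B := by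
          refine setLIntegral_mono' measurableSet_Ioc fun τ hτ => ?_
          obtain ⟨d1, d2⟩ := hD τ hτ.1 (hτ.2.trans ha1)
          refine (block_le hX (by linarith) d1 d2).trans (ENNReal.ofReal_le_ofReal ?_)
          rw [hB]
          have : τ ^ (1 - 3 * ε) ≤ (4 * a) ^ (1 - 3 * ε) :=
            Real.rpow_le_rpow hτ.1.le hτ.2 (by linarith)
          gcongr
      _ = ENNReal.ofReal (4 * a * B) := by
          rw [setLIntegral_const, Real.volume_Ioc, sub_zero, ← ENNReal.ofReal_mul hB0, mul_comm]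
  have h3 : ENNReal.ofReal (H * VV X H) ≤ ENNReal.ofReal (2 * (4 * a * B)) := by
    rw [ENNReal.ofReal_mul hH.le, ENNReal.ofReal_mul (by norm_num)]
    refine h1.trans ?_
    have c2 : (2 : ENNReal) = ENNReal.ofReal 2 := by simp
    rw [← c2]
    exact mul_le_mul' le_rfl h2
  have h4 : H * VV X H ≤ 2 * (4 * a * B) := by
    rwa [ENNReal.ofReal_le_ofReal_iff (by positivity)] at h3
  have h5 : VV X H ≤ 2 * (4 * a * B) / H := by
    rw [le_div_iff₀ hH]
    linarith
  refine h5.trans (le_of_eq ?_)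
  have e1 : (3 * X) ^ (2 * σ + 1) = 3 ^ (2 * σ + 1) * (X ^ (2 * σ) * X) := by
    rw [Real.mul_rpow (by norm_num) hX.le, Real.rpow_add_one hX.ne']
  have e2 : (4 * a) ^ (1 - 3 * ε) = 4 ^ (1 - 3 * ε) * a ^ (1 - 3 * ε) :=
    Real.mul_rpow (by norm_num) ha0.le
  rw [hB, e1, e2]
  have e3 : a * X = H := by rw [ha]; field_simp
  rw [div_eq_iff hH.ne']
  rw [← e3]
  ring

end

end Pool.Agent.J6H10.GC
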