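import Pool.Agent.J6H10.GC.L3
import Pool.Agent.R303.SW.Mo
import Pool.Agent.W190.A17

/-! # Bounds for the variance from zero-free half planes and from zeros -/

set_option autoImplicit false

open MeasureTheory Filter Topology Set
open Pool.Agent.H295R2 hiding VV
open Pool.Agent.H448R2.GC (Mer MH VV)
open Pool.Agent.K1H70.GC (md mg)
open Pool.Agent.R303.SW (muR DF)

namespace Pool.Agent.J6H10.GC

noncomputable section

lemma md_eq (x H : ℝ) : md x H = (DF muR H x) ^ 2 := rfl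

/-- the first absolute moment -/
def AA (X H : ℝ) : ℝ := (1 / X) * ∫ x in X..2 * X, |MH x H|

lemma AA_eq {X H : ℝ} (hX : 0 < X) (hH : 0 < H) :
    AA X H = (1 / X) * ∫ x in X..2 * X, |DF muR H x| := by
  unfold AA
  congr 1
  refine intervalIntegral.integral_congr_ae ?_
  filter_upwards [Pool.Agent.H448R2.GC.SV.ae_MH hH] with x hx _
  rw [hx]
  rfl

lemma VV_eq' {X H : ℝ} (hX : 0 < X) (hH : 0 < H) :
    VV X H = (1 / X) * ∫ x in X..2 * X, (DF muR H x) ^ 2 := by
  rw [Pool.Agent.K1H70.GC.VV_eq hX hH, intervalIntegral.integral_of_le (by linarith)]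
  rfl

lemma DF_II' (H x y : ℝ) : IntervalIntegrable (fun z => DF muR H z) volume x y := by
  have := Pool.Agent.R303.SW.DF_II muR H 0 x y
  simpa using this

lemma DF_II2' (H x y : ℝ) : IntervalIntegrable (fun z => DF muR H z ^ 2) volume x y := by
  have := Pool.Agent.R303.SW.DF_II2 muR H 0 x y
  simpa using this

lemma AA_nonneg {X H : ℝ} (hX : 0 < X) : 0 ≤ AA X H :=
  mul_nonneg (by positivity) (intervalIntegral.integral_nonneg (by linarith) fun _ _ => abs_nonneg _)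

/-- Cauchy-Schwarz -/
lemma AA_sq_le {X H : ℝ} (hX : 0 < X) (hH : 0 < H) : AA X H ^ 2 ≤ VV X H := by
  have h0 := AA_nonneg (H := H) hX
  rcases h0.eq_or_lt with h | h
  · rw [← h]
    simpa using Pool.Agent.K1H70.GC.VV_nonneg hX hH
  · set c : ℝ := AA X H with hc
    have h1 : ∫ x in X..2 * X, |DF muR H x| ≤
        ∫ x in X..2 * X, ((1 / (2 * c)) * (DF muR H x) ^ 2 + c / 2) := by
      refine intervalIntegral.integral_mono_on (by linarith) (DF_II' H _ _).abs
        (((DF_II2' H _ _).const_mul _).add intervalIntegrable_const) fun x _ => ?_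
      have h2 : 0 ≤ (1 / (2 * c)) * (|DF muR H x| - c) ^ 2 := by positivity
      have h3 : (1 / (2 * c)) * (|DF muR H x| - c) ^ 2 =
          (1 / (2 * c)) * |DF muR H x| ^ 2 + c / 2 - |DF muR H x| := by
        field_simp
        ring
      rw [sq_abs] at h3
      linarith
    rw [intervalIntegral.integral_add ((DF_II2' H _ _).const_mul _) intervalIntegrable_const,
      intervalIntegral.integral_const_mul, intervalIntegral.integral_const, smul_eq_mul] at h1
    have h4 : ∫ x in X..2 * X, |DF muR H x| = X * c := by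
      rw [hc, AA_eq hX hH]
      field_simp
    have h5 : ∫ x in X..2 * X, (DF muR H x) ^ 2 = X * VV X H := by
      rw [VV_eq' hX hH]
      field_simp
    rw [h4, h5] at h1
    have h6 : X * (c ^ 2) ≤ X * VV X H := by
      have h7 : (X * c) * (2 * c) ≤ (1 / (2 * c) * (X * VV X H) + (2 * X - X) * (c / 2)) * (2 * c) :=
        mul_le_mul_of_nonneg_right h1 (by positivity)
      have h8 : (1 / (2 * c) * (X * VV X H) + (2 * X - X) * (c / 2)) * (2 * c) =
          X * VV X H + X * c ^ 2 := by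
        field_simp
        ring
      rw [h8] at h7
      nlinarith
    exact le_of_mul_le_mul_left h6 hX

/-- a zero gives large values for all large `X` -/
theorem AA_lower {θ ε : ℝ} (hθ : 1 / 2 ≤ θ) (hε : 0 < ε) (hε1 : ε < 1)
    (hz : ∃ s : ℂ, riemannZeta s = 0 ∧ θ < s.re) :
    ∀ᶠ X : ℝ in atTop, ∀ H : ℝ, 0 < H → H ≤ X ^ (1 - ε) → H * X ^ (θ - 1) ≤ AA X H := by
  have h := Pool.Agent.R303.SW.mu_DF θ 0 1 ε hθ le_rfl (by nlinarith [sq_nonneg (2 * θ - 1)])
    one_pos hε hε1 hz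
  filter_upwards [h, eventually_gt_atTop 0] with X h1 hX H hH hHX
  have h2 := h1 H hH hHX
  rw [Real.rpow_zero, div_one, one_mul, ← two_mul] at h2
  rw [AA_eq hX hH, Real.rpow_sub_one hX.ne', one_div, ← div_eq_inv_mul, ← mul_div_assoc]
  exact div_le_div_of_nonneg_right h2 hX.le

theorem VV_lower {θ ε : ℝ} (hθ : 1 / 2 ≤ θ) (hε : 0 < ε) (hε1 : ε < 1)
    (hz : ∃ s : ℂ, riemannZeta s = 0 ∧ θ < s.re) :
    ∀ᶠ X : ℝ in atTop, ∀ H : ℝ, 0 < H → H ≤ X ^ (1 - ε) → H ^ 2 * X ^ (2 * θ - 2) ≤ VV X H := by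
  filter_upwards [AA_lower hθ hε hε1 hz, eventually_gt_atTop 0] with X h1 hX H hH hHX
  refine le_trans ?_ (AA_sq_le hX hH)
  have h2 := pow_le_pow_left₀ (by positivity) (h1 H hH hHX) 2
  refine le_trans (le_of_eq ?_) h2
  rw [mul_pow, ← Real.rpow_natCast (X ^ (θ - 1)) 2, ← Real.rpow_mul hX.le]
  congr 2
  push_cast
  ring

/-- the trivial range `X / 4 ≤ H ≤ X` -/
theorem VV_upper_large {θ σ : ℝ} (hθ : 1 / 4 ≤ θ) (hz : ∀ s : ℂ, θ < s.re → Zs s ≠ 0) (hσ : θ < σ)
    (hσ2 : σ ≤ 2) :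
    ∃ C : ℝ, 0 < C ∧ ∀ X H : ℝ, 1 ≤ X → 0 < H → H ≤ X → VV X H ≤ C * X ^ (2 * σ) := by
  obtain ⟨C, hC, hM⟩ := mertens_bound hθ hz hσ hσ2
  refine ⟨4 * (C * 3 ^ σ) ^ 2, by positivity, fun X H hX1 hH hHX => ?_⟩
  have hX : 0 < X := by linarith
  have hb : ∀ y : ℝ, 0 ≤ y → y ≤ 3 * X → |Mer y| ≤ C * 3 ^ σ * X ^ σ := by
    intro y hy0 hy
    have e : C * 3 ^ σ * X ^ σ = C * (3 * X) ^ σ := by
      rw [Real.mul_rpow (by norm_num) hX.le]
      ring
    rw [e]
    rcases lt_or_ge y 1 with h1 | h1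
    · have : Mer y = 0 := by
        unfold Pool.Agent.H448R2.GC.Mer
        rw [Nat.floor_eq_zero.2 h1]
        simp
      rw [this, abs_zero]
      positivity
    · refine (hM y h1).trans ?_
      have : y ^ σ ≤ (3 * X) ^ σ := Real.rpow_le_rpow hy0 hy (by linarith)
      gcongr
  have h1 : ∀ x ∈ Icc X (2 * X), (DF muR H x) ^ 2 ≤ 4 * (C * 3 ^ σ) ^ 2 * X ^ (2 * σ) := by
    intro x hx
    have h2 := hb (x + H / 2) (by linarith [hx.1]) (by linarith [hx.2])
    have h3 := hb (x - H / 2) (by linarith [hx.1]) (by linarith [hx.2])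
    have h4 : |DF muR H x| ≤ 2 * (C * 3 ^ σ * X ^ σ) := by
      have : DF muR H x = Mer (x + H / 2) - Mer (x - H / 2) := rfl
      rw [this]
      exact (abs_sub _ _).trans (by linarith)
    rw [← sq_abs]
    refine (pow_le_pow_left₀ (abs_nonneg _) h4 2).trans (le_of_eq ?_)
    have e : X ^ (2 * σ) = (X ^ σ) ^ 2 := by
      rw [← Real.rpow_natCast (X ^ σ) 2, ← Real.rpow_mul hX.le]
      congr 1
      push_cast
      ring
    rw [e]
    ring
  rw [VV_eq' hX hH]
  have h5 : ∫ x in X..2 * X, (DF muR H x) ^ 2 ≤ ∫ _x in X..2 * X, 4 * (C * 3 ^ σ) ^ 2 * X ^ (2 * σ) :=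
    intervalIntegral.integral_mono_on (by linarith) (DF_II2' H _ _) intervalIntegrable_const h1
  rw [intervalIntegral.integral_const, smul_eq_mul] at h5
  calc 1 / X * ∫ x in X..2 * X, (DF muR H x) ^ 2
      ≤ 1 / X * ((2 * X - X) * (4 * (C * 3 ^ σ) ^ 2 * X ^ (2 * σ))) := by gcongr
    _ = _ := by field_simp; ring

/-- **The upper bound for the variance in a zero-free half plane.** -/
theorem VV_upper {Θ : ℝ} (hΘ : 1 / 4 ≤ Θ) (hΘ1 : Θ ≤ 1) (hz : ∀ s : ℂ, Θ < s.re → Zs s ≠ 0)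
    {ε : ℝ} (hε : 0 < ε) :
    ∃ C : ℝ, 0 < C ∧ ∀ X H : ℝ, 1 ≤ H → H ≤ X → VV X H ≤ C * H * X ^ (2 * Θ - 1 + ε) := by
  set e : ℝ := min ε 1 / 8 with he
  have he0 : 0 < e := by rw [he]; positivity
  have he1 : 8 * e ≤ ε := by
    rw [he]
    linarith [min_le_left ε 1]
  have he2 : 8 * e ≤ 1 := by
    rw [he]
    linarith [min_le_right ε 1]
  obtain ⟨C1, hC1, hs⟩ := VV_upper_small hΘ hz (by linarith : Θ < Θ + e) (by linarith) he0 (by linarith)
  obtain ⟨C2, hC2, hl⟩ := VV_upper_large hΘ hz (by linarith : Θ < Θ + e) (by linarith)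
  refine ⟨C1 + 4 * C2, by positivity, fun X H hH hHX => ?_⟩
  have hX1 : 1 ≤ X := hH.trans hHX
  have hX : 0 < X := by linarith
  have hH0 : 0 < H := by linarith
  have hpow : 0 < X ^ (2 * Θ - 1 + ε) := by positivity
  rcases le_or_gt (4 * H) X with h | h
  · have h1 := hs X H hH0 h
    have h2 : X ^ (2 * (Θ + e)) * (H / X) ^ (1 - 3 * e) ≤ H * X ^ (2 * Θ - 1 + ε) := by
      have h3 : (H / X) ^ (1 - 3 * e) = (H / X) * (X / H) ^ (3 * e) := by
        rw [Real.rpow_sub (by positivity), Real.rpow_one, div_eq_mul_inv _ ((H / X) ^ (3 * e)),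
          ← Real.inv_rpow (by positivity), inv_div]
      have h4 : (X / H) ^ (3 * e) ≤ X ^ (3 * e) := by
        apply Real.rpow_le_rpow (by positivity) _ (by positivity)
        exact div_le_self hX.le hH
      rw [h3]
      calc X ^ (2 * (Θ + e)) * ((H / X) * (X / H) ^ (3 * e))
          ≤ X ^ (2 * (Θ + e)) * ((H / X) * X ^ (3 * e)) := by gcongr
        _ = H * (X ^ (2 * (Θ + e)) * X ^ (3 * e) * X ^ (-1 : ℝ)) := by
            rw [Real.rpow_neg_one]
            ring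
        _ = H * X ^ (2 * Θ - 1 + 5 * e) := by
            rw [← Real.rpow_add hX, ← Real.rpow_add hX]
            congr 2
            ring
        _ ≤ H * X ^ (2 * Θ - 1 + ε) := by
            have := Real.rpow_le_rpow_of_exponent_le hX1 (by linarith : 2 * Θ - 1 + 5 * e ≤ 2 * Θ - 1 + ε)
            gcongr
    calc VV X H ≤ C1 * X ^ (2 * (Θ + e)) * (H / X) ^ (1 - 3 * e) := h1
      _ = C1 * (X ^ (2 * (Θ + e)) * (H / X) ^ (1 - 3 * e)) := by ring
      _ ≤ C1 * (H * X ^ (2 * Θ - 1 + ε)) := by gcongr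
      _ ≤ (C1 + 4 * C2) * H * X ^ (2 * Θ - 1 + ε) := by
          have : 0 ≤ 4 * C2 * (H * X ^ (2 * Θ - 1 + ε)) := by positivity
          linarith
  · have h1 := hl X H hX1 hH0 hHX
    have h2 : X ^ (2 * (Θ + e)) ≤ 4 * (H * X ^ (2 * Θ - 1 + ε)) := by
      calc X ^ (2 * (Θ + e)) = X * X ^ (2 * Θ - 1 + 2 * e) := by
            rw [mul_comm X, ← Real.rpow_add_one hX.ne']
            congr 1
            ring
        _ ≤ (4 * H) * X ^ (2 * Θ - 1 + ε) := by
            have := Real.rpow_le_rpow_of_exponent_le hX1 (by linarith : 2 * Θ - 1 + 2 * e ≤ 2 * Θ - 1 + ε)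
            gcongr
        _ = _ := by ring
    calc VV X H ≤ C2 * X ^ (2 * (Θ + e)) := h1
      _ ≤ C2 * (4 * (H * X ^ (2 * Θ - 1 + ε))) := by gcongr
      _ ≤ (C1 + 4 * C2) * H * X ^ (2 * Θ - 1 + ε) := by
          have : 0 ≤ C1 * (H * X ^ (2 * Θ - 1 + ε)) := by positivity
          linarith

end

end Pool.Agent.J6H10.GC
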